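import Pool.Agent.Helper82.SG.GenRep
import Pool.Agent.Helper82.SR.RepEx

set_option autoImplicit false

/-!
# PROJECT SB (MP_ad201b_nt), block P: the obstruction of a class of `X` at a valuation ring
-/

open MvPolynomial IntermediateField NumberField IsDedekindDomain
open scoped TensorProduct

namespace Pool.Agent.SB

open Pool.Agent.Helper8.BR Pool.Agent.Helper1.SR

section

variable (k : Type) [Field k] {Ω : Type} [Field Ω] [Algebra k Ω] [IsAlgClosed Ω]
  {n : ℕ} (ξ : Fin (n + 1) → Ω)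

/-- a point over an extension of `k` specialises to a point over `Ω` -/
theorem exists_closed_pt {κ : Type} [Field κ] [Algebra k κ] (x : Fin (n + 1) → κ)
    (m : Fin (n + 1)) (hm : x m = 1) :
    ∃ y : Fin (n + 1) → Ω, y m = 1 ∧ ∀ f : MvPolynomial (Fin (n + 1)) k,
      aeval x f = 0 → aeval y f = 0 := by
  let I : Ideal (MvPolynomial (Fin (n + 1)) k) := RingHom.ker (aeval x).toRingHom
  have hI : I ≠ ⊤ := RingHom.ker_ne_top _
  obtain ⟨M, hM, hIM⟩ := Ideal.exists_le_maximal I hI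
  let F := MvPolynomial (Fin (n + 1)) k ⧸ M
  let iF : Field F := Ideal.Quotient.field M
  have hfin : Module.Finite k F := finite_of_finite_type_of_isJacobsonRing k F
  let j : F →ₐ[k] Ω := IsAlgClosed.lift
  let q : MvPolynomial (Fin (n + 1)) k →ₐ[k] F := Ideal.Quotient.mkₐ k M
  have h1 : ∀ f, j (q f) = aeval (fun i => j (q (X i))) f := fun f => by
    have h2 : (j.comp q) = aeval (fun i => j (q (X i))) := by
      ext i
      simp
    exact congrArg (fun t => t f) h2
  have h3 : ∀ f : MvPolynomial (Fin (n + 1)) k, aeval x f = 0 →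
      aeval (fun i => j (q (X i))) f = 0 := fun f hf => by
    rw [← h1]
    have h4 : f ∈ M := hIM hf
    have h5 : q f = 0 := Ideal.Quotient.eq_zero_iff_mem.2 h4
    rw [h5, map_zero]
  refine ⟨fun i => j (q (X i)), ?_, h3⟩
  have h6 := h3 (X m - 1) (by rw [map_sub, aeval_X, map_one, hm, sub_self])
  rw [map_sub, aeval_X, map_one] at h6
  exact sub_eq_zero.1 h6

/-- a valuation ring containing the constants contains one of the coordinate rings -/
theorem exists_center (hξ : ξ ≠ 0) (α : BrClass k ξ) (V : ValuationSubring Ω)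
    (hV : ∀ a : k, algebraMap k Ω a ∈ V) :
    ∃ i : Fin α.N, ∀ r ∈ coordRing k ξ (α.e i) (α.g i), r ∈ V := by
  obtain ⟨i0, hi0⟩ : ∃ i, ξ i ≠ 0 := by
    by_contra h
    push Not at h
    exact hξ (funext h)
  obtain ⟨m, hm⟩ := Finite.exists_max fun i => V.valuation (ξ i)
  have hm0 : ξ m ≠ 0 := by
    intro h0
    have h1 := hm i0
    change V.valuation (ξ i0) ≤ V.valuation (ξ m) at h1
    rw [h0, map_zero, le_zero_iff, map_eq_zero] at h1
    exact hi0 h1
  have hmem : ∀ i, ξ i / ξ m ∈ V := fun i => by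
    rw [← ValuationSubring.valuation_le_one_iff, map_div₀]
    exact (div_le_one₀ (zero_lt_iff.2 (by rw [Ne, map_eq_zero]; exact hm0))).2 (hm i)
  let w : Fin (n + 1) → V := fun i => ⟨ξ i / ξ m, hmem i⟩
  let κk : k →+* V := (algebraMap k Ω).codRestrict V.toSubring hV
  let iV : Algebra k V := κk.toAlgebra
  have htow : IsScalarTower k V Ω := IsScalarTower.of_algebraMap_eq fun _ => rfl
  let iR : Algebra k (IsLocalRing.ResidueField V) :=
    ((IsLocalRing.residue V).comp κk).toAlgebra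
  let res : V →ₐ[k] IsLocalRing.ResidueField V :=
    { IsLocalRing.residue V with commutes' := fun _ => rfl }
  let x : Fin (n + 1) → IsLocalRing.ResidueField V := fun i => res (w i)
  have hx : ∀ f : MvPolynomial (Fin (n + 1)) k, aeval x f = res (aeval w f) := fun f => by
    rw [MvPolynomial.comp_aeval_apply]
  have hw : ∀ f : MvPolynomial (Fin (n + 1)) k,
      ((aeval w f : V) : Ω) = aeval (fun i => ξ i / ξ m) f := fun f => by
    have h1 := MvPolynomial.aeval_algebraMap_apply Ω w f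
    exact h1.symm
  have hxm : x m = 1 := by
    have h2 : w m = 1 := Subtype.ext (div_self hm0)
    change res (w m) = 1
    rw [h2, map_one]
  obtain ⟨y, hym, hy⟩ := exists_closed_pt k (Ω := Ω) x m hxm
  obtain ⟨i, hi⟩ := α.cover y ⟨fun h0 => by
      rw [h0] at hym
      exact zero_ne_one hym, fun e f hf h0 => hy f (by
      rw [aeval_dehom k ξ hf m hm0] at h0
      have h1 := (mul_eq_zero.1 h0).resolve_left (pow_ne_zero _ hm0)
      have h2 : aeval w f = 0 := Subtype.ext (by rw [hw, h1]; rfl)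
      rw [hx, h2, map_zero])⟩
  have hxg : aeval x (α.g i) ≠ 0 := fun h => hi (hy _ h)
  rw [hx] at hxg
  have hunit : IsUnit (aeval w (α.g i) : V) := by
    by_contra h
    apply hxg
    exact (IsLocalRing.residue_eq_zero_iff _).2 ((IsLocalRing.mem_maximalIdeal _).2 h)
  obtain ⟨u, hu⟩ := hunit
  refine ⟨i, fun r hr => ?_⟩
  have h1 : coordRing k ξ (α.e i) (α.g i) ≤
      ({ V.toSubring with algebraMap_mem' := hV } : Subalgebra k Ω) := by
    refine Algebra.adjoin_le ?_
    rintro _ ⟨f, hf, rfl⟩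
    change _ ∈ V
    rw [aeval_dehom k ξ hf m hm0, aeval_dehom k ξ (α.hom i) m hm0,
      mul_div_mul_left _ _ (pow_ne_zero _ hm0), ← hw, ← hw, ← hu]
    have h2 : (((u : V) : Ω))⁻¹ = (((u⁻¹ : Vˣ) : V) : Ω) := by
      refine inv_eq_of_mul_eq_one_right ?_
      have h3 := congrArg (fun z : V => (z : Ω)) u.mul_inv
      exact h3
    rw [div_eq_mul_inv, h2]
    exact V.mul_mem _ _ (Subtype.mem _) (Subtype.mem _)
  exact h1 hr

/-- (P1) `ob_of_valuation` for the class `α` -/
theorem ob_class [NumberField k] (hξ : ξ ≠ 0) [Algebra.IsAlgebraic (funField k ξ) Ω]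
    (α : BrClass k ξ)
    (A : Type) [Ring A] [Algebra (funField k ξ) A] [IsAzumaya (funField k ξ) A]
    (hA : GenRep k α A) (D : Datum (funField k ξ) Ω A) (V : ValuationSubring Ω)
    (hV : ∀ a : Ω, IsAlgebraic k a → a ∈ V) (σ τ : Ω ≃ₐ[funField k ξ] Ω)
    (hσ : ∀ x, σ x ∈ V ↔ x ∈ V) (hτ : ∀ x, τ x ∈ V ↔ x ∈ V)
    (hτ1 : ∀ x ∈ V, V.valuation (τ x - x) < 1) :
    ∃ (E1 : IntermediateField (funField k ξ) Ω) (m : ℕ),
      FiniteDimensional (funField k ξ) E1 ∧ m ≠ 0 ∧ ∀ q : ℕ,
      (∀ x ∈ E1, (σ * τ * σ⁻¹) x = (τ ^ q) x) → (∀ ζ : Ω, ζ ^ m = 1 → σ ζ = ζ ^ q) →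
      OB D (AlgEquiv.restrictNormalHom D.E σ) (AlgEquiv.restrictNormalHom D.E τ) q := by
  obtain ⟨i, hi⟩ := exists_center k ξ hξ α V fun a => hV _ (isAlgebraic_algebraMap a)
  let χ := incl k ξ hξ (α.hom i)
  let i1 : Algebra (coordRing k ξ (α.e i) (α.g i)) (funField k ξ) := χ.toAlgebra
  have hAz := α.azumaya i
  have hd : V.valuation (D.d : Ω) = 1 := by
    have h0 : (D.d : Ω) ≠ 0 := by
      have h9 : algebraMap k Ω (D.d : k) ≠ 0 := by
        rw [Ne, map_eq_zero]
        exact Nat.cast_ne_zero.2 D.hd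
      rwa [map_natCast] at h9
    have h1 : (D.d : Ω) ∈ V := natCast_mem V.toSubring _
    have h2 : (D.d : Ω)⁻¹ ∈ V := hV _ (by
      have h3 : IsAlgebraic k (algebraMap k Ω (D.d : k)) := isAlgebraic_algebraMap _
      rw [map_natCast] at h3
      exact h3.inv)
    rw [← ValuationSubring.valuation_le_one_iff] at h1 h2
    rw [map_inv₀] at h2
    refine le_antisymm h1 ?_
    have h4 : V.valuation (D.d : Ω) ≠ 0 := by rw [Ne, map_eq_zero]; exact h0
    exact (inv_le_one₀ (zero_lt_iff.2 h4)).1 h2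
  exact Pool.Agent.Helper82.SR.ob_of_valuation' D σ τ V hσ hτ hτ1 hd
    (coordRing k ξ (α.e i) (α.g i)) (α.A i) (fun r => hi _ r.2) (hA i χ fun z => rfl)

end

end Pool.Agent.SB
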