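import Pool.Agent.Helper79.SB.Defs
import Pool.Agent.Helper1.SR.AzBase

set_option autoImplicit false

/-!
# PROJECT SB (MP_ad201b_nt), block P: the generic class of a Brauer class
-/

open MvPolynomial IntermediateField NumberField IsDedekindDomain
open scoped TensorProduct

namespace Pool.Agent.SB

open Pool.Agent.Helper8.BR Pool.Agent.Helper1.SR

section

variable (k : Type) [Field k] {Ω : Type} [Field Ω] [Algebra k Ω]
  {n : ℕ} (ξ : Fin (n + 1) → Ω)

/-- `A` represents the generic class of `α` -/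
def GenRep {ξ : Fin (n + 1) → Ω} (α : BrClass k ξ) (A : Type) [Ring A]
    [Algebra (funField k ξ) A] : Prop :=
  ∀ (i : Fin α.N) (φ : coordRing k ξ (α.e i) (α.g i) →+* funField k ξ),
    (∀ z, (φ z : Ω) = z) → BrEq (funField k ξ) (BC φ (α.A i)) A

theorem aeval_scale' {E : Type} [Field E] [Algebra k E] {e : ℕ}
    {f : MvPolynomial (Fin (n + 1)) k} (hf : f.IsHomogeneous e) (c : E) (y : Fin (n + 1) → E) :
    aeval (fun i => c * y i) f = c ^ e * aeval y f := by
  rw [aeval_def, aeval_def, eval₂_eq', eval₂_eq', Finset.mul_sum]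
  refine Finset.sum_congr rfl fun d hd => ?_
  have h1 : ∑ i, d i = e := by
    rw [hf.degree_eq_sum_deg_support hd]
    exact (Finset.sum_subset (Finset.subset_univ _) fun i _ hi => Finsupp.notMem_support_iff.1 hi).symm
  have h2 : ∏ i, (c * y i) ^ d i = c ^ e * ∏ i, y i ^ d i := by
    simp_rw [mul_pow]
    rw [Finset.prod_mul_distrib, Finset.prod_pow_eq_pow_sum, h1]
  rw [h2]
  ring

/-- dehomogenisation -/
theorem aeval_dehom {e : ℕ} {f : MvPolynomial (Fin (n + 1)) k} (hf : f.IsHomogeneous e)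
    (m : Fin (n + 1)) (hm : ξ m ≠ 0) :
    aeval ξ f = ξ m ^ e * aeval (fun i => ξ i / ξ m) f := by
  rw [← aeval_scale' k hf]
  congr 2
  funext i
  field_simp

theorem aeval_mem_funField (f : MvPolynomial (Fin (n + 1)) k) (m : Fin (n + 1)) :
    aeval (fun i => ξ i / ξ m) f ∈ funField k ξ := by
  have h1 : ∀ i, ξ i / ξ m ∈ funField k ξ := fun i => subset_adjoin _ _ ⟨i, m, rfl⟩
  have h2 : aeval (fun i => ξ i / ξ m) f =
      (funField k ξ).val (aeval (fun i => (⟨ξ i / ξ m, h1 i⟩ : funField k ξ)) f) := by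
    rw [MvPolynomial.comp_aeval_apply]
    rfl
  rw [h2]
  exact Subtype.mem _

theorem div_mem_funField (hξ : ξ ≠ 0) {e : ℕ} {f g : MvPolynomial (Fin (n + 1)) k}
    (hf : f.IsHomogeneous e) (hg : g.IsHomogeneous e) :
    aeval ξ f / aeval ξ g ∈ funField k ξ := by
  obtain ⟨m, hm⟩ : ∃ m, ξ m ≠ 0 := by
    by_contra h
    push Not at h
    exact hξ (funext h)
  rw [aeval_dehom k ξ hf m hm, aeval_dehom k ξ hg m hm,
    mul_div_mul_left _ _ (pow_ne_zero e hm)]
  exact div_mem (aeval_mem_funField k ξ f m) (aeval_mem_funField k ξ g m)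

theorem coordRing_le (hξ : ξ ≠ 0) {e : ℕ} {g : MvPolynomial (Fin (n + 1)) k}
    (hg : g.IsHomogeneous e) : ∀ z ∈ coordRing k ξ e g, z ∈ funField k ξ := by
  intro z hz
  have h1 : coordRing k ξ e g ≤ (funField k ξ).toSubalgebra := by
    refine Algebra.adjoin_le ?_
    rintro _ ⟨f, hf, rfl⟩
    exact div_mem_funField k ξ hξ hf hg
  exact h1 hz

/-- the inclusion of the coordinate ring into the function field -/
def incl (hξ : ξ ≠ 0) {e : ℕ} {g : MvPolynomial (Fin (n + 1)) k}
    (hg : g.IsHomogeneous e) : coordRing k ξ e g →+* funField k ξ where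
  toFun z := ⟨z, coordRing_le k ξ hξ hg z z.2⟩
  map_one' := rfl
  map_mul' _ _ := rfl
  map_zero' := rfl
  map_add' _ _ := rfl

theorem incl_coe (hξ : ξ ≠ 0) {e : ℕ} {g : MvPolynomial (Fin (n + 1)) k}
    (hg : g.IsHomogeneous e) (z : coordRing k ξ e g) :
    ((incl k ξ hξ hg z : funField k ξ) : Ω) = z := rfl

/-- (P0) the generic class is represented by an Azumaya algebra -/
theorem exists_genRep (hξ : ξ ≠ 0) (α : BrClass k ξ) :
    ∃ (A : Type) (_ : Ring A) (_ : Algebra (funField k ξ) A), IsAzumaya (funField k ξ) A ∧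
      GenRep k α A := by
  obtain ⟨i, hi⟩ := α.cover ξ ⟨hξ, fun e f _ h => h⟩
  let χ := incl k ξ hξ (α.hom i)
  let i1 : Algebra (coordRing k ξ (α.e i) (α.g i)) (funField k ξ) := χ.toAlgebra
  have hA := α.azumaya i
  refine ⟨BC χ (α.A i), inferInstance, inferInstance, az_baseChange' _ _ _, fun j φ hφ => ?_⟩
  exact α.same j i φ χ hφ fun z => rfl

end

end Pool.Agent.SB
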