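import Pool.Agent.Helper82.SG.Tele

set_option autoImplicit false

/-!
# Project SG: the telescope acts faithfully on a countable dense linear order
-/

namespace Pool.Agent.Helper82.SG

open Pool.Agent.Helper81.MCG

/-- Sequences of rationals with `x (k + 1) = ι (x k)` for all large `k`. -/
structure CS where
  x : ℕ → ℚ
  coh : ∃ N, ∀ k, N ≤ k → x (k + 1) = iota (x k)

instance : Preorder CS where
  le s t := ∃ N, ∀ k, N ≤ k → s.x k ≤ t.x k
  le_refl s := ⟨0, fun k _ => le_rfl⟩
  le_trans s t u := by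
    rintro ⟨N, hN⟩ ⟨M, hM⟩
    exact ⟨max N M, fun k hk => (hN k (le_trans (le_max_left _ _) hk)).trans
      (hM k (le_trans (le_max_right _ _) hk))⟩

lemma CS.le_def (s t : CS) : s ≤ t ↔ ∃ N, ∀ k, N ≤ k → s.x k ≤ t.x k := Iff.rfl

/-- The colimit of `ℚ → ℚ → ⋯` along `ι`. -/
abbrev LL : Type := Antisymmetrization CS (· ≤ ·)

/-- the class of a sequence -/
def cls (s : CS) : LL := toAntisymmetrization (· ≤ ·) s

lemma cls_le (s t : CS) : cls s ≤ cls t ↔ s ≤ t := Iff.rfl

lemma cls_eq {s t : CS} (h : ∃ N, ∀ k, N ≤ k → s.x k = t.x k) : cls s = cls t := by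
  obtain ⟨N, hN⟩ := h
  apply le_antisymm
  · exact ⟨N, fun k hk => (hN k hk).le⟩
  · exact ⟨N, fun k hk => (hN k hk).ge⟩

/-- the point `t` of the level `N` -/
noncomputable def seq (N : ℕ) (t : ℚ) : CS where
  x k := iota^[k - N] t
  coh := ⟨N, fun k hk => by rw [Nat.sub_add_comm hk, Function.iterate_succ_apply']⟩

/-- the point `t` of the level `N` -/
noncomputable def mk (N : ℕ) (t : ℚ) : LL := cls (seq N t)

lemma iota_iterate_strictMono (k : ℕ) : StrictMono (iota^[k]) := iota_strictMono.iterate k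

lemma mk_le_mk (N : ℕ) (s t : ℚ) : mk N s ≤ mk N t ↔ s ≤ t := by
  rw [mk, mk, cls_le, CS.le_def]
  constructor
  · rintro ⟨M, hM⟩
    have := hM (max M N) (le_max_left _ _)
    exact (iota_iterate_strictMono _).le_iff_le.mp this
  · intro h
    exact ⟨0, fun k _ => (iota_iterate_strictMono _).monotone h⟩

lemma mk_add (N k : ℕ) (t : ℚ) : mk (N + k) (iota^[k] t) = mk N t := by
  apply cls_eq
  refine ⟨N + k, fun m hm => ?_⟩
  change iota^[m - (N + k)] (iota^[k] t) = iota^[m - N] t
  rw [← Function.iterate_add_apply]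
  congr 2
  omega

lemma exists_mk (z : LL) : ∃ N t, z = mk N t := by
  induction z using Antisymmetrization.ind with
  | _ s =>
    obtain ⟨N, hN⟩ := s.coh
    refine ⟨N, s.x N, ?_⟩
    apply cls_eq
    refine ⟨N, fun k hk => ?_⟩
    obtain ⟨m, rfl⟩ := Nat.exists_eq_add_of_le hk
    change s.x (N + m) = iota^[N + m - N] (s.x N)
    rw [Nat.add_sub_cancel_left]
    clear hk
    induction m with
    | zero => rfl
    | succ m ih => rw [Function.iterate_succ_apply', ← ih, ← hN (N + m) (by omega)]; rfl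

lemma exists_mk_ge (i : ℕ) (z : LL) : ∃ N t, i ≤ N ∧ z = mk N t := by
  obtain ⟨N, t, rfl⟩ := exists_mk z
  exact ⟨N + i, iota^[i] t, by omega, (mk_add N i t).symm⟩

lemma exists_mk_common (i : ℕ) (z w : LL) : ∃ N s t, i ≤ N ∧ z = mk N s ∧ w = mk N t := by
  obtain ⟨M, t, rfl⟩ := exists_mk w
  obtain ⟨N, s, hN, rfl⟩ := exists_mk_ge (max i M) z
  obtain ⟨k, rfl⟩ := Nat.exists_eq_add_of_le (le_trans (le_max_right i M) hN)
  exact ⟨M + k, s, iota^[k] t, le_trans (le_max_left i M) hN, rfl, (mk_add M k t).symm⟩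

open Classical in
noncomputable instance : LinearOrder LL :=
  { (inferInstance : PartialOrder LL) with
    le_total := by
      intro z w
      obtain ⟨N, s, t, -, rfl, rfl⟩ := exists_mk_common 0 z w
      rcases le_total s t with h | h
      · exact Or.inl ((mk_le_mk N s t).mpr h)
      · exact Or.inr ((mk_le_mk N t s).mpr h)
    toDecidableLE := Classical.decRel _ }

lemma mk_lt_mk (N : ℕ) (s t : ℚ) : mk N s < mk N t ↔ s < t := by
  rw [← not_le, ← not_le]
  exact not_congr (mk_le_mk N t s)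

instance : Countable LL := by
  have : Function.Surjective (fun p : ℕ × ℚ => mk p.1 p.2) := by
    intro z
    obtain ⟨N, t, h⟩ := exists_mk z
    exact ⟨(N, t), h.symm⟩
  exact this.countable

instance : Nonempty LL := ⟨mk 0 0⟩

instance : DenselyOrdered LL where
  dense z w h := by
    obtain ⟨N, s, t, -, rfl, rfl⟩ := exists_mk_common 0 z w
    rw [mk_lt_mk] at h
    obtain ⟨u, hu1, hu2⟩ := exists_between h
    exact ⟨mk N u, (mk_lt_mk N s u).mpr hu1, (mk_lt_mk N u t).mpr hu2⟩

instance : NoMinOrder LL where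
  exists_lt z := by
    obtain ⟨N, t, rfl⟩ := exists_mk z
    exact ⟨mk N (t - 1), (mk_lt_mk N _ _).mpr (by linarith)⟩

instance : NoMaxOrder LL where
  exists_gt z := by
    obtain ⟨N, t, rfl⟩ := exists_mk z
    exact ⟨mk N (t + 1), (mk_lt_mk N _ _).mpr (by linarith)⟩

/-! ### The action -/

variable (n : ℕ)

lemma phi_iterate_mul (m : ℕ) (p q : PP n) : (phi n)^[m] (p * q) = (phi n)^[m] p * (phi n)^[m] q :=
  iterate_map_mul (phi n) m p q

lemma phi_iterate_one (m : ℕ) : (phi n)^[m] 1 = 1 := iterate_map_one (phi n) m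

/-- the action of the `i`-th copy of `P` on sequences -/
noncomputable def act (i : ℕ) (p : PP n) (s : CS) : CS where
  x k := rho n ((phi n)^[k - i] p) (s.x k)
  coh := by
    obtain ⟨N, hN⟩ := s.coh
    refine ⟨max N i, fun k hk => ?_⟩
    rw [hN k (le_trans (le_max_left _ _) hk), Nat.sub_add_comm (le_trans (le_max_right _ _) hk),
      Function.iterate_succ_apply', rho_phi_iota]

/-- the action of the `i`-th copy of `P` on the colimit -/
noncomputable def actL (i : ℕ) (p : PP n) : LL → LL :=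
  Quotient.map' (act n i p) (by
    rintro s t ⟨⟨N, hN⟩, ⟨M, hM⟩⟩
    exact ⟨⟨N, fun k hk => (rho n _).monotone (hN k hk)⟩, ⟨M, fun k hk => (rho n _).monotone (hM k hk)⟩⟩)

lemma actL_mk (i N : ℕ) (h : i ≤ N) (p : PP n) (t : ℚ) :
    actL n i p (mk N t) = mk N (rho n ((phi n)^[N - i] p) t) := by
  apply cls_eq
  refine ⟨N, fun k hk => ?_⟩
  obtain ⟨m, rfl⟩ := Nat.exists_eq_add_of_le hk
  change rho n ((phi n)^[N + m - i] p) (iota^[N + m - N] t) = iota^[N + m - N] (rho n ((phi n)^[N - i] p) t)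
  rw [Nat.add_sub_cancel_left, show N + m - i = m + (N - i) by omega]
  clear hk
  induction m with
  | zero => simp
  | succ m ih =>
    rw [show m + 1 + (N - i) = (m + (N - i)) + 1 by omega, Function.iterate_succ_apply',
      Function.iterate_succ_apply', rho_phi_iota, ih, Function.iterate_succ_apply']

lemma actL_mul (i : ℕ) (p q : PP n) (z : LL) : actL n i (p * q) z = actL n i p (actL n i q z) := by
  obtain ⟨N, t, h, rfl⟩ := exists_mk_ge i z
  rw [actL_mk n i N h, actL_mk n i N h, actL_mk n i N h, phi_iterate_mul, map_mul, AQ.mul_apply]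

lemma actL_one (i : ℕ) (z : LL) : actL n i 1 z = z := by
  obtain ⟨N, t, h, rfl⟩ := exists_mk_ge i z
  rw [actL_mk n i N h, phi_iterate_one, map_one]
  rfl

lemma actL_le (i : ℕ) (p : PP n) (z w : LL) : actL n i p z ≤ actL n i p w ↔ z ≤ w := by
  obtain ⟨N, s, t, h, rfl, rfl⟩ := exists_mk_common i z w
  rw [actL_mk n i N h, actL_mk n i N h, mk_le_mk, mk_le_mk, AQ.le_iff]

lemma actL_succ (i : ℕ) (p : PP n) (z : LL) : actL n (i + 1) (phi n p) z = actL n i p z := by
  obtain ⟨N, t, h, rfl⟩ := exists_mk_ge (i + 1) z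
  rw [actL_mk n (i + 1) N h, actL_mk n i N (by omega), ← Function.iterate_succ_apply,
    show (N - (i + 1)).succ = N - i by omega]

lemma exists_LQ : Nonempty (LL ≃o ℚ) := Order.iso_of_countable_dense LL ℚ

/-- an identification of the colimit with `ℚ` -/
noncomputable def eLQ : LL ≃o ℚ := exists_LQ.some

/-- the `i`-th copy of `P` in `Aut(ℚ)` -/
noncomputable def aQ (i : ℕ) : PP n →* AQ where
  toFun p :=
    { toFun := fun x => eLQ (actL n i p (eLQ.symm x))
      invFun := fun x => eLQ (actL n i p⁻¹ (eLQ.symm x))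
      left_inv := fun x => by
        beta_reduce
        rw [OrderIso.symm_apply_apply, ← actL_mul, inv_mul_cancel, actL_one, OrderIso.apply_symm_apply]
      right_inv := fun x => by
        beta_reduce
        rw [OrderIso.symm_apply_apply, ← actL_mul, mul_inv_cancel, actL_one, OrderIso.apply_symm_apply]
      map_rel_iff' := by
        intro x y
        change eLQ (actL n i p (eLQ.symm x)) ≤ eLQ (actL n i p (eLQ.symm y)) ↔ x ≤ y
        rw [eLQ.le_iff_le, actL_le, eLQ.symm.le_iff_le] }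
  map_one' := by
    ext x
    change eLQ (actL n i 1 (eLQ.symm x)) = x
    rw [actL_one, OrderIso.apply_symm_apply]
  map_mul' p q := by
    ext x
    change eLQ (actL n i (p * q) (eLQ.symm x)) = eLQ (actL n i p (eLQ.symm (eLQ (actL n i q (eLQ.symm x)))))
    rw [OrderIso.symm_apply_apply, actL_mul]

lemma aQ_apply (i : ℕ) (p : PP n) (x : ℚ) : aQ n i p x = eLQ (actL n i p (eLQ.symm x)) := rfl

lemma aQ_injective (i : ℕ) : Function.Injective (aQ n i) := by
  rw [injective_iff_map_eq_one]
  intro p hp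
  apply rho_injective n
  rw [map_one]
  ext t
  have h1 : aQ n i p (eLQ (mk i t)) = eLQ (mk i t) := by rw [hp]; rfl
  rw [aQ_apply, OrderIso.symm_apply_apply, actL_mk n i i le_rfl, eLQ.injective.eq_iff, Nat.sub_self] at h1
  apply le_antisymm
  · exact (mk_le_mk i _ _).mp h1.le
  · exact (mk_le_mk i _ _).mp h1.ge

lemma aQ_succ (i : ℕ) (p : PP n) : aQ n (i + 1) (phi n p) = aQ n i p := by
  ext x
  rw [aQ_apply, aQ_apply, actL_succ]

lemma aQ_add (i k : ℕ) (p : PP n) : aQ n (i + k) ((phi n)^[k] p) = aQ n i p := by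
  induction k generalizing i p with
  | zero => rfl
  | succ k ih =>
    rw [Function.iterate_succ_apply, show i + (k + 1) = (i + 1) + k by ring, ih, aQ_succ]

/-- The group `G_n ≤ Aut(ℚ)`, the union of the copies of `P`. -/
noncomputable def GG : Subgroup AQ where
  carrier := {g | ∃ i p, aQ n i p = g}
  mul_mem' := by
    rintro _ _ ⟨i, p, rfl⟩ ⟨j, q, rfl⟩
    refine ⟨i + j, (phi n)^[j] p * (phi n)^[i] q, ?_⟩
    rw [map_mul, aQ_add, show i + j = j + i by ring, aQ_add]
  one_mem' := ⟨0, 1, map_one _⟩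
  inv_mem' := by
    rintro _ ⟨i, p, rfl⟩
    exact ⟨i, p⁻¹, map_inv _ _⟩

/-- the telescope in `Aut(ℚ)` -/
noncomputable def teleGG : Tele n (GG n) where
  a i := (aQ n i).codRestrict (GG n) (fun p => ⟨i, p, rfl⟩)
  inj i p q h := aQ_injective n i (congrArg Subtype.val h)
  comp i p := Subtype.ext (aQ_succ n i p)
  surj g := by
    obtain ⟨g, i, p, h⟩ := g
    exact ⟨i, p, Subtype.ext h⟩

/-- transport of a telescope along an injective homomorphism -/
noncomputable def Tele.map {n : ℕ} {G K : Type} [Group G] [Group K] (T : Tele n G) (f : G →* K)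
    (hf : Function.Injective f) : Tele n f.range where
  a i := f.rangeRestrict.comp (T.a i)
  inj i p q h := T.inj i (hf (congrArg Subtype.val h))
  comp i p := by
    change f.rangeRestrict (T.a (i + 1) (phi n p)) = f.rangeRestrict (T.a i p)
    rw [T.comp]
  surj g := by
    obtain ⟨_, x, rfl⟩ := g
    obtain ⟨i, p, rfl⟩ := T.surj x
    exact ⟨i, p, rfl⟩

end Pool.Agent.Helper82.SG
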