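import Pool.Agent.Helper81.MCG.Gamma

set_option autoImplicit false

/-!
# Project SG: conjugation to the translation by one; every automorphism of ℚ is a commutator
-/

namespace Pool.Agent.Helper82.SG

open Pool.Agent.Helper81.MCG

lemma zpow_lt_of_lt (p : AQ) (hp : ∀ x, x < p x) {m n : ℤ} (hmn : m ≤ n) (x : ℚ) :
    (p ^ m) x ≤ (p ^ n) x := by
  obtain ⟨k, rfl⟩ := Int.le.dest hmn
  induction k with
  | zero => simp
  | succ k ih =>
    have h1 := ih (by omega)
    have h2 : (p ^ (m + (k + 1 : ℕ))) x = p ((p ^ (m + (k : ℤ))) x) := by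
      rw [← AQ.mul_apply]
      congr 1
      rw [show m + ((k + 1 : ℕ) : ℤ) = 1 + (m + k) by push_cast; ring, zpow_add, zpow_one]
    rw [h2]
    exact h1.trans (hp _).le

/-- An automorphism of `ℚ` all of whose orbits go from `-∞` to `∞` is conjugate to the translation
by one. -/
theorem conj_tr_one (p : AQ) (hp : ∀ x, x < p x) (hup : ∀ y, ∃ n : ℕ, y < (p ^ n) 0)
    (hdown : ∀ y, ∃ n : ℤ, (p ^ n) 0 ≤ y) :
    ∃ w : AQ, ∀ x, w (x + 1) = p (w x) := by
  set s : ℚ := p 0 with hs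
  have hs0 : 0 < s := hp 0
  set w : ℚ → ℚ := fun x => (p ^ ⌊x⌋) (s * Int.fract x) with hw
  have hmono : StrictMono w := by
    intro x y hxy
    simp only [hw]
    rcases lt_or_eq_of_le (Int.floor_mono hxy.le) with hlt | heq
    · have h1 : s * Int.fract x < s := by
        have := Int.fract_lt_one x
        nlinarith
      have h2 : (p ^ ⌊x⌋) (s * Int.fract x) < (p ^ (⌊x⌋ + 1)) 0 := by
        rw [zpow_add_one, AQ.mul_apply, AQ.lt_iff]
        exact h1
      have h3 : (p ^ (⌊x⌋ + 1)) 0 ≤ (p ^ ⌊y⌋) 0 := zpow_lt_of_lt p hp (by omega) 0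
      have h4 : (p ^ ⌊y⌋) 0 ≤ (p ^ ⌊y⌋) (s * Int.fract y) := by
        rw [AQ.le_iff]
        have := Int.fract_nonneg y
        positivity
      linarith
    · rw [heq, AQ.lt_iff]
      apply mul_lt_mul_of_pos_left _ hs0
      have h1 := Int.floor_add_fract x
      have h2 := Int.floor_add_fract y
      have h3 : ((⌊x⌋ : ℤ) : ℚ) = ⌊y⌋ := by rw [heq]
      linarith
  have hsurj : Function.Surjective w := by
    intro y
    have hb : ∃ b : ℤ, ∀ n : ℤ, (p ^ n) 0 ≤ y → n ≤ b := by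
      obtain ⟨k, hk⟩ := hup y
      refine ⟨k, fun n hn => ?_⟩
      by_contra hcon
      push Not at hcon
      have h1 := zpow_lt_of_lt p hp hcon.le 0
      rw [zpow_natCast] at h1
      linarith
    obtain ⟨n, hn1, hn2⟩ := Int.exists_greatest_of_bdd hb (hdown y)
    have hn3 : y < (p ^ (n + 1)) 0 := by
      by_contra hcon
      push Not at hcon
      have := hn2 _ hcon
      omega
    set u : ℚ := (p ^ (-n)) y with hu
    have hu1 : (p ^ n) u = y := by
      rw [hu, ← AQ.mul_apply, ← zpow_add]; simp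
    have hu2 : 0 ≤ u := by
      rw [← AQ.le_iff (p ^ n), hu1]; exact hn1
    have hu3 : u < s := by
      rw [← AQ.lt_iff (p ^ n), hu1]
      rw [zpow_add_one, AQ.mul_apply] at hn3
      exact hn3
    have hfr : 0 ≤ u / s ∧ u / s < 1 := ⟨by positivity, by rw [div_lt_one hs0]; exact hu3⟩
    refine ⟨n + u / s, ?_⟩
    have hfl : ⌊(n : ℚ) + u / s⌋ = n := by
      rw [Int.floor_intCast_add]
      have : ⌊u / s⌋ = 0 := Int.floor_eq_zero_iff.mpr hfr
      rw [this]; simp
    simp only [hw]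
    rw [hfl, Int.fract_intCast_add, Int.fract_eq_self.mpr hfr]
    have : s * (u / s) = u := by field_simp
    rw [this]; exact hu1
  refine ⟨StrictMono.orderIsoOfSurjective w hmono hsurj, fun x => ?_⟩
  simp only [StrictMono.coe_orderIsoOfSurjective, hw]
  rw [Int.floor_add_one, Int.fract_add_one, zpow_add, zpow_one]
  have : Commute (p ^ ⌊x⌋) p := (Commute.refl p).zpow_left _
  rw [this.eq, AQ.mul_apply]

/-- Every automorphism of `ℚ` is a commutator. -/
theorem exists_commutator (f : AQ) : ∃ c s : AQ, f = c * s * c⁻¹ * s⁻¹ := by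
  have key : ∀ p : AQ, (∀ x, x + 1 ≤ p x) → ∃ w : AQ, p = w * (OrderIso.addRight (1 : ℚ)) * w⁻¹ := by
    intro p hp
    obtain ⟨w, hw⟩ := conj_translation p hp
    refine ⟨w, ?_⟩
    rw [eq_mul_inv_iff_mul_eq]
    ext x
    exact (hw x).symm
  obtain ⟨h, hh⟩ := exists_max (OrderIso.addRight (1 : ℚ)) (f⁻¹ * OrderIso.addRight (1 : ℚ))
  have h1 : ∀ x, x + 1 ≤ h x := by
    intro x; rw [hh]; exact le_max_left _ _
  have h2 : ∀ x, x + 1 ≤ (f * h) x := by
    intro x
    have h3 : f⁻¹ (x + 1) ≤ h x := by rw [hh]; exact le_max_right _ _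
    have h4 := f.monotone h3
    have h5 : f (f⁻¹ (x + 1)) = x + 1 := by
      rw [← AQ.mul_apply]; simp
    rw [h5] at h4
    exact h4
  obtain ⟨w1, hw1⟩ := key _ h1
  obtain ⟨w2, hw2⟩ := key _ h2
  refine ⟨w2 * w1⁻¹, h, ?_⟩
  have h3 : (OrderIso.addRight (1 : ℚ) : AQ) = w1⁻¹ * h * w1 := by rw [hw1]; group
  have h4 : f = (f * h) * h⁻¹ := by group
  rw [h4, hw2, h3]
  group

end Pool.Agent.Helper82.SG
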