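import Pool.Agent.Helper82.SG.Supp

set_option autoImplicit false

/-!
# Project SG: a normal subgroup of `G1` containing all commutators with one element which is not an
integer translation is everything
-/

namespace Pool.Agent.Helper82.SG

open Pool.Agent.Helper81.MCG

/-! ### The map `ι = β ∘ β` -/

/-- `ι = β ∘ β : ℚ → ℚ`. -/
noncomputable def iota (t : ℚ) : ℚ := (beta (beta t : ℚ) : ℚ)

lemma iota_strictMono : StrictMono iota := by
  intro s t hst
  have h1 : (beta s : ℚ) < (beta t : ℚ) := beta.strictMono hst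
  exact beta.strictMono h1

lemma unitMap_beta (f : AQ) (t : ℚ) : unitMap f (beta t : ℚ) = (beta (f t) : ℚ) := by
  rw [unitMap_of_mem f _ (beta t).2]
  change (beta (f (beta.symm (beta t))) : ℚ) = _
  rw [OrderIso.symm_apply_apply]

lemma perMap_beta (f : AQ) (t : ℚ) : perMap f (beta t : ℚ) = (beta (f t) : ℚ) := by
  have h := (beta t).2
  rw [perMap, Int.floor_eq_zero_iff.mpr ⟨h.1.le, h.2⟩, Int.fract_eq_self.mpr ⟨h.1.le, h.2⟩,
    unitMap_beta]
  simp

lemma exists_beta {y : ℚ} (h0 : 0 < y) (h1 : y < 1) : ∃ t : ℚ, y = (beta t : ℚ) :=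
  ⟨beta.symm ⟨y, h0, h1⟩, by simp⟩

lemma beta_lt {s t : ℚ} : (beta s : ℚ) < (beta t : ℚ) ↔ s < t := by
  rw [Subtype.coe_lt_coe]; exact beta.lt_iff_lt

lemma beta_le {s t : ℚ} : (beta s : ℚ) ≤ (beta t : ℚ) ↔ s ≤ t := by
  rw [Subtype.coe_le_coe]; exact beta.le_iff_le

lemma beta_pos (t : ℚ) : 0 < (beta t : ℚ) := (beta t).2.1

lemma beta_lt_one (t : ℚ) : (beta t : ℚ) < 1 := (beta t).2.2

lemma exists_iota {y : ℚ} (h0 : (beta 0 : ℚ) < y) (h1 : y < (beta 1 : ℚ)) : ∃ t : ℚ, y = iota t := by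
  obtain ⟨s, hs⟩ := exists_beta (lt_trans (beta_pos 0) h0) (lt_trans h1 (beta_lt_one 1))
  rw [hs, beta_lt] at h0
  rw [hs, beta_lt] at h1
  obtain ⟨t, ht⟩ := exists_beta h0 h1
  exact ⟨t, by rw [hs, ht]; rfl⟩

/-! ### A model of the elements supported in an interval -/

/-- `f` acts on the block `(0,1)`, everything else is fixed. -/
noncomputable def blockZero : AQ →* AQ := blockHom.comp (MonoidHom.mulSingle (fun _ : ℤ => AQ) 0)

lemma blockZero_apply (f : AQ) (x : ℚ) :
    blockZero f x = ⌊x⌋ + unitMap ((Pi.mulSingle (0 : ℤ) f : ℤ → AQ) ⌊x⌋) (Int.fract x) := rfl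

lemma blockZero_beta (f : AQ) (t : ℚ) : blockZero f (beta t : ℚ) = (beta (f t) : ℚ) := by
  have h := (beta t).2
  rw [blockZero_apply, Int.floor_eq_zero_iff.mpr ⟨h.1.le, h.2⟩, Int.fract_eq_self.mpr ⟨h.1.le, h.2⟩,
    Pi.mulSingle_eq_same, unitMap_beta]
  simp

lemma blockZero_fix (f : AQ) (x : ℚ) (hx : x ≤ 0 ∨ 1 ≤ x) : blockZero f x = x := by
  rw [blockZero_apply]
  by_cases h : ⌊x⌋ = 0
  · have h1 := Int.floor_eq_zero_iff.mp h
    have h2 : x = 0 := by
      rcases hx with h3 | h3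
      · exact le_antisymm h3 h1.1
      · exact absurd h1.2 (not_lt.mpr h3)
    subst h2
    simp [unitMap_zero]
  · rw [Pi.mulSingle_eq_of_ne h, unitMap_one, Int.floor_add_fract]

/-- The isomorphism of `Aut(ℚ)` with the group of the elements of `G1` supported in
`(β 0, β 1) + ℤ`. -/
noncomputable def Cmap : AQ →* G1 := E0.comp blockZero

lemma Cmap_iota (f : AQ) (t : ℚ) : (Cmap f).1 (iota t) = iota (f t) := by
  change perMap (blockZero f) (beta (beta t : ℚ) : ℚ) = _
  rw [perMap_beta, blockZero_beta]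
  rfl

lemma perMap_supp {f : AQ} {a b : ℚ} (hf : ∀ x, x ≤ a ∨ b ≤ x → f x = x) :
    SuppIn (beta a : ℚ) (beta b : ℚ) (E0 f) := by
  intro x hx1 hx2
  rw [E0_apply]
  rcases lt_or_ge x 1 with h | h
  · obtain ⟨t, ht⟩ := exists_beta (lt_of_lt_of_le (beta_pos b) hx1) h
    rw [ht, beta_le] at hx1
    rw [ht, perMap_beta, hf t (Or.inr hx1)]
  · have h1 := beta_lt_one a
    have e1 : ⌊x⌋ = 1 := by
      rw [Int.floor_eq_iff]
      constructor
      · exact_mod_cast h
      · push_cast; linarith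
    have e2 : Int.fract x = x - 1 := by
      rw [← Int.self_sub_floor, e1]; simp
    rw [perMap, e1, e2]
    rcases eq_or_lt_of_le h with h2 | h2
    · rw [← h2]; simp [unitMap_zero]
    · obtain ⟨t, ht⟩ := exists_beta (show (0 : ℚ) < x - 1 by linarith) (show x - 1 < 1 by linarith)
      have h3 : t ≤ a := by rw [← beta_le, ← ht]; linarith
      rw [ht, unitMap_beta, hf t (Or.inl h3), ← ht]
      push_cast; ring

lemma Cmap_supp (f : AQ) : SuppIn (beta 0 : ℚ) (beta 1 : ℚ) (Cmap f) :=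
  perMap_supp fun x hx => blockZero_fix f x hx

lemma zero_lt_one_beta : (beta 0 : ℚ) < (beta 1 : ℚ) := beta_lt.mpr zero_lt_one

lemma beta_one_lt : (beta 1 : ℚ) < (beta 0 : ℚ) + 1 := by
  have h1 := beta_pos 0
  have h2 := beta_lt_one 1
  linarith

lemma supp_surj {u : G1} (hu : SuppIn (beta 0 : ℚ) (beta 1 : ℚ) u) : ∃ f, Cmap f = u := by
  have ha : u.1 (beta 0 : ℚ) = (beta 0 : ℚ) := hu.left beta_one_lt.le
  have hb : u.1 (beta 1 : ℚ) = (beta 1 : ℚ) := hu _ le_rfl beta_one_lt.le
  have himem : ∀ t : ℚ, (beta 0 : ℚ) < iota t ∧ iota t < (beta 1 : ℚ) := fun t =>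
    ⟨beta_lt.mpr (beta_pos t), beta_lt.mpr (beta_lt_one t)⟩
  have hmem : ∀ t : ℚ, ∃ s : ℚ, u.1 (iota t) = iota s := by
    intro t
    apply exists_iota
    · rw [← ha]; exact u.1.strictMono (himem t).1
    · rw [← hb]; exact u.1.strictMono (himem t).2
  choose F hF using hmem
  have hmono : StrictMono F := by
    intro s t hst
    rw [← iota_strictMono.lt_iff_lt, ← hF, ← hF, u.1.lt_iff_lt, iota_strictMono.lt_iff_lt]
    exact hst
  have hsurj : Function.Surjective F := by
    intro y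
    have h1 : (beta 0 : ℚ) < u.1.symm (iota y) := by
      rw [← u.1.lt_iff_lt, OrderIso.apply_symm_apply, ha]; exact (himem y).1
    have h2 : u.1.symm (iota y) < (beta 1 : ℚ) := by
      rw [← u.1.lt_iff_lt, OrderIso.apply_symm_apply, hb]; exact (himem y).2
    obtain ⟨t, ht⟩ := exists_iota h1 h2
    refine ⟨t, ?_⟩
    apply iota_strictMono.injective
    rw [← hF, ← ht, OrderIso.apply_symm_apply]
  set f : AQ := StrictMono.orderIsoOfSurjective F hmono hsurj with hf
  refine ⟨f, ?_⟩
  have hff : ∀ t, f t = F t := fun t => rfl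
  apply G1.ext
  intro x
  obtain ⟨y, m, rfl, h1, h2⟩ := exists_rep (beta 0 : ℚ) x
  rw [G1.add_int, G1.add_int]
  congr 1
  rcases eq_or_lt_of_le h1 with h3 | h3
  · rw [← h3, ha]
    exact (Cmap_supp f).left beta_one_lt.le
  · rcases lt_or_ge y (beta 1 : ℚ) with h4 | h4
    · obtain ⟨t, ht⟩ := exists_iota h3 h4
      rw [ht, Cmap_iota, hff, ← hF]
    · rw [Cmap_supp f y h4 h2.le, hu y h4 h2.le]

/-! ### Gluing -/

lemma exists_glue (A B : AQ) (q : ℚ) (h : A q = B q) :
    ∃ C : AQ, (∀ x, x ≤ q → C x = A x) ∧ ∀ x, q ≤ x → C x = B x := by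
  classical
  set F : ℚ → ℚ := fun x => if x ≤ q then A x else B x with hF
  have h1 : ∀ x, x ≤ q → F x = A x := fun x hx => by simp [hF, hx]
  have h2 : ∀ x, q ≤ x → F x = B x := by
    intro x hx
    rcases eq_or_lt_of_le hx with h3 | h3
    · rw [← h3, h1 q le_rfl, h]
    · simp [hF, not_le.mpr h3]
  have hmono : StrictMono F := by
    intro x y hxy
    rcases le_total y q with h3 | h3
    · rw [h1 x (hxy.le.trans h3), h1 y h3]; exact A.strictMono hxy
    · rcases le_total x q with h4 | h4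
      · rw [h1 x h4, h2 y h3]
        have e1 : A x ≤ A q := A.monotone h4
        have e2 : B q ≤ B y := B.monotone h3
        rcases eq_or_lt_of_le h4 with h5 | h5
        · have h6 : q < y := by rw [← h5]; exact hxy
          have := B.strictMono h6
          rw [h5, h]; exact this
        · have := A.strictMono h5
          rw [h] at this
          exact lt_of_lt_of_le this e2
      · rw [h2 x h4, h2 y h3]; exact B.strictMono hxy
  have hsurj : Function.Surjective F := by
    intro y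
    rcases le_total y (A q) with h3 | h3
    · refine ⟨A.symm y, ?_⟩
      rw [h1, OrderIso.apply_symm_apply]
      rw [← A.le_iff_le, OrderIso.apply_symm_apply]; exact h3
    · refine ⟨B.symm y, ?_⟩
      rw [h2, OrderIso.apply_symm_apply]
      rw [← B.le_iff_le, OrderIso.apply_symm_apply, ← h]; exact h3
  exact ⟨StrictMono.orderIsoOfSurjective F hmono hsurj, h1, h2⟩

/-- an affine automorphism through two points -/
lemma exists_affine {a b c d : ℚ} (hab : a < b) (hcd : c < d) : ∃ A : AQ, A a = c ∧ A b = d := by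
  set s : ℚ := (d - c) / (b - a) with hs
  have hs0 : 0 < s := div_pos (by linarith) (by linarith)
  refine ⟨StrictMono.orderIsoOfSurjective (fun x => c + s * (x - a)) ?_ ?_, ?_, ?_⟩
  · intro x y hxy
    have := mul_lt_mul_of_pos_left (show x - a < y - a by linarith) hs0
    change c + s * (x - a) < c + s * (y - a)
    linarith
  · intro y
    refine ⟨a + (y - c) / s, ?_⟩
    change c + s * (a + (y - c) / s - a) = y
    field_simp
    ring
  · change c + s * (a - a) = c
    ring
  · change c + (d - c) / (b - a) * (b - a) = d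
    have : b - a ≠ 0 := by linarith
    field_simp
    ring

/-- Every automorphism of `ℚ` is a product of two automorphisms each of which is the identity on a
half line. -/
lemma exists_half (f : AQ) : ∃ f1 f2 : AQ, f = f1 * f2 ∧ (∃ r, ∀ x, r ≤ x → f1 x = x) ∧
    ∃ q, ∀ x, x ≤ q → f2 x = x := by
  set r : ℚ := max 0 (f 0) + 1 with hr
  have h1 : (0 : ℚ) < r := by have := le_max_left 0 (f 0); linarith
  have h2 : f 0 < r := by have := le_max_right 0 (f 0); linarith
  obtain ⟨A, hA1, hA2⟩ := exists_affine h1 h2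
  obtain ⟨B, hB1, hB2⟩ := exists_glue A 1 r hA2
  obtain ⟨C, hC1, hC2⟩ := exists_glue f B 0 (by rw [hB1 0 h1.le, hA1])
  refine ⟨C, C⁻¹ * f, by group, ⟨r, fun x hx => ?_⟩, ⟨0, fun x hx => ?_⟩⟩
  · rw [hC2 x (h1.le.trans hx), hB2 x hx]; rfl
  · rw [AQ.mul_apply, ← hC1 x hx, ← AQ.mul_apply]; simp

/-! ### The main lemma -/

/-- A normal subgroup of `G1` which contains all elements supported in short intervals is
everything. -/
theorem eq_top_of_supp {N : Subgroup G1} [hN : N.Normal]
    (h : ∀ a b : ℚ, a < b → b < a + 1 → ∀ u, SuppIn a b u → u ∈ N) : N = ⊤ := by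
  -- the stabiliser of zero
  have s0 : ∀ k : G1, k.1 0 = 0 → k ∈ N := by
    intro k hk
    obtain ⟨f, rfl⟩ := E0_surj k hk
    obtain ⟨f1, f2, rfl, ⟨r, hr⟩, ⟨q, hq⟩⟩ := exists_half f
    rw [map_mul]
    apply N.mul_mem
    · apply h 0 (beta r : ℚ) (beta_pos r) (by have := beta_lt_one r; linarith)
      intro x hx1 hx2
      rw [zero_add] at hx2
      rw [E0_apply]
      rcases eq_or_lt_of_le hx2 with h3 | h3
      · rw [h3, perMap]; simp [unitMap_zero]
      · obtain ⟨t, ht⟩ := exists_beta (lt_of_lt_of_le (beta_pos r) hx1) h3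
        rw [ht, beta_le] at hx1
        rw [ht, perMap_beta, hr t hx1]
    · apply h (beta q : ℚ) 1 (beta_lt_one q) (by have := beta_pos q; linarith)
      intro x hx1 hx2
      rw [E0_apply]
      have h1 := beta_lt_one q
      have e1 : ⌊x⌋ = 1 := by
        rw [Int.floor_eq_iff]
        constructor
        · exact_mod_cast hx1
        · push_cast; linarith
      have e2 : Int.fract x = x - 1 := by
        rw [← Int.self_sub_floor, e1]; simp
      rw [perMap, e1, e2]
      rcases eq_or_lt_of_le hx1 with h2 | h2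
      · rw [← h2]; simp [unitMap_zero]
      · obtain ⟨t, ht⟩ := exists_beta (show (0 : ℚ) < x - 1 by linarith) (show x - 1 < 1 by linarith)
        have h3 : t ≤ q := by rw [← beta_le, ← ht]; linarith
        rw [ht, unitMap_beta, hq t h3, ← ht]
        push_cast; ring
  -- the stabilisers of the other points
  have st : ∀ (t : ℚ) (k : G1), k.1 t = t → k ∈ N := by
    intro t k hk
    have h1 : (tr t)⁻¹ * k * tr t ∈ N := by
      apply s0
      rw [tr_inv, G1.mul_apply, G1.mul_apply, tr_apply, tr_apply, zero_add, hk]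
      ring
    have h2 := hN.conj_mem _ h1 (tr t)
    have e : tr t * ((tr t)⁻¹ * k * tr t) * (tr t)⁻¹ = k := by group
    rw [e] at h2
    exact h2
  -- elements moving `0` by less than one
  have sm : ∀ g : G1, -1 < g.1 0 → g.1 0 < 1 → g ∈ N := by
    intro g hg1 hg2
    set y := g.1 0 with hy
    obtain ⟨t, ht1, ht2⟩ : ∃ t : ℚ, t < min 0 y ∧ max 0 y < t + 1 := by
      have : max 0 y - 1 < min 0 y := by
        rcases le_total 0 y with h0 | h0
        · rw [max_eq_right h0, min_eq_left h0]; linarith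
        · rw [max_eq_left h0, min_eq_right h0]; linarith
      obtain ⟨t, h1, h2⟩ := exists_between this
      exact ⟨t, h2, by linarith⟩
    have a1 : t < 0 := lt_of_lt_of_le ht1 (min_le_left _ _)
    have a2 : t < y := lt_of_lt_of_le ht1 (min_le_right _ _)
    have a3 : (0 : ℚ) < t + 1 := lt_of_le_of_lt (le_max_left _ _) ht2
    have a4 : y < t + 1 := lt_of_le_of_lt (le_max_right _ _) ht2
    obtain ⟨e, he1, he2⟩ := exists_move a1 a3 a2 a4
    have h1 : e ∈ N := st t e he1
    have h2 : e⁻¹ * g ∈ N := by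
      apply s0
      rw [G1.mul_apply, ← hy, ← he2, inv_apply_apply]
    have := N.mul_mem h1 h2
    rwa [mul_inv_cancel_left] at this
  have half : tr (1 / 2) ∈ N := by
    apply sm <;> rw [tr_apply] <;> norm_num
  rw [Subgroup.eq_top_iff']
  intro g
  set m : ℤ := ⌊2 * g.1 0⌋ with hm
  have h1 : (tr (1 / 2)) ^ (-m) * g ∈ N := by
    have e : ((tr (1 / 2)) ^ (-m) * g).1 0 = g.1 0 - m / 2 := by
      rw [G1.mul_apply, tr_zpow, tr_apply]
      push_cast
      ring
    have h2 := Int.floor_le (2 * g.1 0)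
    have h3 := Int.lt_floor_add_one (2 * g.1 0)
    rw [← hm] at h2 h3
    apply sm
    · rw [e]; linarith
    · rw [e]; linarith
  have h2 := N.mul_mem (N.zpow_mem half m) h1
  rwa [← mul_assoc, ← zpow_add, add_neg_cancel, zpow_zero, one_mul] at h2

/-- **Lemma S.** -/
theorem eq_top_of_commutators {N : Subgroup G1} [hN : N.Normal] {x : G1} (hx : NotInt x)
    (h : ∀ v, x * v * x⁻¹ * v⁻¹ ∈ N) : N = ⊤ := by
  obtain ⟨a, b, m, hab, hab1, h1, h2⟩ := hx.exists_interval
  obtain ⟨k, hk1, hk2⟩ := exists_move zero_lt_one_beta beta_one_lt hab hab1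
  have hC : ∀ f : AQ, Cmap f ∈ N := by
    intro f
    obtain ⟨c, s, hcs⟩ := exists_commutator f
    have hc := (Cmap_supp c).conj k
    have hs := (Cmap_supp s).conj k
    rw [hk1, hk2] at hc hs
    have h3 := commutator_mem hab hab1 h1 h2 h hc hs
    have h4 := hN.conj_mem _ h3 k⁻¹
    have e : k⁻¹ * (k * Cmap c * k⁻¹ * (k * Cmap s * k⁻¹) * (k * Cmap c * k⁻¹)⁻¹ * (k * Cmap s * k⁻¹)⁻¹) * k⁻¹⁻¹
        = Cmap f := by
      rw [hcs]
      simp only [map_mul, map_inv]
      group
    rw [e] at h4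
    exact h4
  apply eq_top_of_supp
  intro a' b' hab' hab1' u hu
  obtain ⟨k', hk1', hk2'⟩ := exists_move hab' hab1' zero_lt_one_beta beta_one_lt
  have h3 := hu.conj k'
  rw [hk1', hk2'] at h3
  obtain ⟨f, hf⟩ := supp_surj h3
  have h4 := hN.conj_mem _ (hC f) k'⁻¹
  rw [hf] at h4
  have e : k'⁻¹ * (k' * u * k'⁻¹) * k'⁻¹⁻¹ = u := by group
  rw [e] at h4
  exact h4

end Pool.Agent.Helper82.SG
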