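import Pool.Agent.Helper82.SG.Colim
import Pool.Agent.Helper81.MCG.Inj

set_option autoImplicit false

/-!
# Project SG: simple subgroups of the mapping class group of the plane minus a Cantor set
-/

namespace Pool.Agent.Helper82.SG

open Pool.Agent.Helper81.MCG

theorem main : ∃ C : Set ℂ, IsCantorSet C ∧ ∀ n : ℕ, ∃ H : Subgroup (ExtMap C),
    (H : Set (ExtMap C)) ⊆ MapClasses C ∧ IsSimpleGroup H ∧ ¬ Amenable H ∧ dimQTilde H = n ∧
      ∃ f : (ℚ ≃o ℚ) →* H, Function.Injective f := by
  refine ⟨CC, CC_cantor, fun n => ?_⟩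
  have hinj : Function.Injective (mcgHom.comp (GG n).subtype) :=
    mcgHom_injective.comp (GG n).subtype_injective
  set T := (teleGG n).map (mcgHom.comp (GG n).subtype) hinj with hT
  refine ⟨(mcgHom.comp (GG n).subtype).range, ?_, T.simple, T.not_amenable, T.rank,
    ((T.a 0).comp (MonoidHom.mulSingle (fun _ => G1) 0)).comp E0, ?_⟩
  · rintro h ⟨g, rfl⟩
    exact ⟨surfHom g.1, surfHom_orientation _, rfl⟩
  · exact ((T.inj 0).comp (Pi.mulSingle_injective (M := fun _ : Fin (n + 1) => G1) 0)).comp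
      E0_injective

end Pool.Agent.Helper82.SG
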