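import Pool.Agent.Helper82.SG.Conj

set_option autoImplicit false

/-!
# Project SG: the blow-up homomorphism `G1 × Aut(ℚ) → G1`
-/

namespace Pool.Agent.Helper82.SG

open Pool.Agent.Helper81.MCG

/-- The lexicographic square of `ℚ`. -/
abbrev QL : Type := ℚ ×ₗ ℚ

instance : Countable QL := inferInstanceAs (Countable (ℚ × ℚ))

lemma QL.le_iff (a b c d : ℚ) : (toLex (a, b) : QL) ≤ toLex (c, d) ↔ a < c ∨ a = c ∧ b ≤ d :=
  Prod.Lex.toLex_le_toLex

/-- the action of a pair of automorphisms on the lexicographic square -/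
def lexMap (g k : AQ) : QL ≃o QL where
  toFun z := toLex (g (ofLex z).1, k (ofLex z).2)
  invFun z := toLex (g.symm (ofLex z).1, k.symm (ofLex z).2)
  left_inv z := by simp
  right_inv z := by simp
  map_rel_iff' := by
    intro z w
    change (toLex (g (ofLex z).1, k (ofLex z).2) : QL) ≤ toLex (g (ofLex w).1, k (ofLex w).2) ↔ z ≤ w
    rw [QL.le_iff, g.lt_iff_lt, g.injective.eq_iff, k.le_iff_le]
    exact (QL.le_iff _ _ _ _).symm

lemma lexMap_apply (g k : AQ) (x y : ℚ) : lexMap g k (toLex (x, y)) = toLex (g x, k y) := rfl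

lemma exists_theta : ∃ θ : QL ≃o ℚ, ∀ x y : ℚ, θ (toLex (x + 1, y)) = θ (toLex (x, y)) + 1 := by
  obtain ⟨e⟩ : Nonempty (QL ≃o ℚ) := Order.iso_of_countable_dense QL ℚ
  set T : QL ≃o QL := lexMap (OrderIso.addRight (1 : ℚ)) 1 with hT
  set p : AQ := (e.symm.trans T).trans e with hp
  have happ : ∀ z, p (e z) = e (T z) := by
    intro z; simp [hp]
  have hTa : ∀ x y : ℚ, T (toLex (x, y)) = toLex (x + 1, y) := fun x y => rfl
  have hpow : ∀ (n : ℕ) (x y : ℚ), (p ^ n) (e (toLex (x, y))) = e (toLex (x + n, y)) := by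
    intro n
    induction n with
    | zero => intro x y; simp
    | succ n ih =>
      intro x y
      rw [pow_succ, AQ.mul_apply, happ, hTa, ih]
      push_cast
      rw [add_assoc, add_comm (1 : ℚ)]
  have hzpow : ∀ (n : ℤ) (x y : ℚ), (p ^ n) (e (toLex (x, y))) = e (toLex (x + n, y)) := by
    intro n x y
    rcases n with k | k
    · simpa using hpow k x y
    · rw [zpow_negSucc]
      have h1 := hpow (k + 1) (x + (Int.negSucc k : ℤ)) y
      have h2 : x + ((Int.negSucc k : ℤ) : ℚ) + ((k + 1 : ℕ) : ℚ) = x := by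
        rw [Int.negSucc_eq]; push_cast; ring
      rw [h2] at h1
      rw [← h1, ← AQ.mul_apply]
      simp
  have hx : ∀ z : ℚ, ∃ x y : ℚ, z = e (toLex (x, y)) := by
    intro z
    exact ⟨(ofLex (e.symm z)).1, (ofLex (e.symm z)).2, by simp⟩
  obtain ⟨x0, y0, h0⟩ := hx 0
  obtain ⟨w, hw⟩ := conj_tr_one p
    (by
      intro z
      obtain ⟨x, y, rfl⟩ := hx z
      rw [happ, e.lt_iff_lt, hTa, Prod.Lex.toLex_lt_toLex]
      left
      simp)
    (by
      intro z
      obtain ⟨x, y, rfl⟩ := hx z
      obtain ⟨n, hn⟩ := exists_nat_gt (x - x0)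
      refine ⟨n, ?_⟩
      rw [h0, hpow, e.lt_iff_lt, Prod.Lex.toLex_lt_toLex]
      left
      change x < x0 + n
      linarith)
    (by
      intro z
      obtain ⟨x, y, rfl⟩ := hx z
      obtain ⟨n, hn⟩ := exists_nat_gt (x0 - x)
      refine ⟨-(n : ℤ), ?_⟩
      rw [h0, hzpow, e.le_iff_le, Prod.Lex.toLex_le_toLex]
      left
      change x0 + ((-(n : ℤ) : ℤ) : ℚ) < x
      push_cast
      linarith)
  refine ⟨e.trans w.symm, fun x y => ?_⟩
  change w.symm (e (toLex (x + 1, y))) = w.symm (e (toLex (x, y))) + 1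
  rw [OrderIso.symm_apply_eq, hw]
  simp only [OrderIso.apply_symm_apply]
  rw [happ, hTa]

/-- An isomorphism of the lexicographic square of `ℚ` with `ℚ` which carries `(x,y) ↦ (x+1,y)` to
the translation by one. -/
noncomputable def theta : QL ≃o ℚ := exists_theta.choose

lemma theta_add_one (x y : ℚ) : theta (toLex (x + 1, y)) = theta (toLex (x, y)) + 1 :=
  exists_theta.choose_spec x y

/-- The blow-up: `g` acts on the first coordinate, `k` on the second one. -/
noncomputable def alpha : G1 × AQ →* G1 where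
  toFun z := ⟨(theta.symm.trans (lexMap z.1.1 z.2)).trans theta, fun x => by
    obtain ⟨a, b, h⟩ : ∃ a b : ℚ, x = theta (toLex (a, b)) :=
      ⟨(ofLex (theta.symm x)).1, (ofLex (theta.symm x)).2, by simp⟩
    subst h
    rw [← theta_add_one]
    simp only [OrderIso.trans_apply, OrderIso.symm_apply_apply, lexMap_apply]
    rw [G1.add_one, theta_add_one]⟩
  map_one' := by
    apply G1.ext; intro x
    change theta (lexMap 1 1 (theta.symm x)) = x
    have : lexMap 1 1 (theta.symm x) = theta.symm x := rfl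
    rw [this]; simp
  map_mul' z w := by
    apply G1.ext; intro x
    rw [G1.mul_apply]
    change theta (lexMap (z.1.1 * w.1.1) (z.2 * w.2) (theta.symm x))
      = theta (lexMap z.1.1 z.2 (theta.symm (theta (lexMap w.1.1 w.2 (theta.symm x)))))
    rw [OrderIso.symm_apply_apply]
    rfl

lemma alpha_apply (g : G1) (k : AQ) (x y : ℚ) :
    (alpha (g, k)).1 (theta (toLex (x, y))) = theta (toLex (g.1 x, k y)) := by
  change theta (lexMap g.1 k (theta.symm (theta (toLex (x, y))))) = _
  rw [OrderIso.symm_apply_apply]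
  rfl

lemma alpha_tr_one : alpha (tr 1, 1) = tr 1 := by
  apply G1.ext; intro x
  obtain ⟨a, b, h⟩ : ∃ a b : ℚ, x = theta (toLex (a, b)) :=
    ⟨(ofLex (theta.symm x)).1, (ofLex (theta.symm x)).2, by simp⟩
  subst h
  rw [alpha_apply, tr_apply, tr_apply, theta_add_one]
  rfl

lemma theta_add_nat (x y : ℚ) (n : ℕ) : theta (toLex (x + n, y)) = theta (toLex (x, y)) + n := by
  induction n with
  | zero => simp
  | succ n ih =>
    push_cast
    rw [← add_assoc, theta_add_one, ih]; ring

lemma theta_add_int (x y : ℚ) (n : ℤ) : theta (toLex (x + n, y)) = theta (toLex (x, y)) + n := by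
  rcases n with k | k
  · simpa using theta_add_nat x y k
  · have h := theta_add_nat (x + (Int.negSucc k : ℤ)) y (k + 1)
    have e : x + ((Int.negSucc k : ℤ) : ℚ) + ((k + 1 : ℕ) : ℚ) = x := by
      rw [Int.negSucc_eq]; push_cast; ring
    rw [e] at h
    rw [h, Int.negSucc_eq]
    push_cast
    ring

/-- The blow-up of a nontrivial `k` is not an integer translation. -/
lemma alpha_not_int (g : G1) (k : AQ) (hk : k ≠ 1) (m : ℤ) : ¬ ∀ x, (alpha (g, k)).1 x = x + m := by
  intro h
  apply hk
  ext y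
  have h1 := h (theta (toLex (0, y)))
  rw [alpha_apply, ← theta_add_int, theta.injective.eq_iff] at h1
  have h2 := congrArg (fun z : QL => (ofLex z).2) h1
  exact h2

lemma alpha_injective : Function.Injective alpha := by
  rw [injective_iff_map_eq_one]
  rintro ⟨g, k⟩ h
  have h1 : ∀ x y : ℚ, g.1 x = x ∧ k y = y := by
    intro x y
    have h2 := alpha_apply g k x y
    rw [h] at h2
    change theta (toLex (x, y)) = _ at h2
    rw [theta.injective.eq_iff] at h2
    have h3 := congrArg (fun z : QL => (ofLex z).1) h2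
    have h4 := congrArg (fun z : QL => (ofLex z).2) h2
    exact ⟨h3.symm, h4.symm⟩
  ext1
  · apply G1.ext; intro x; exact (h1 x 0).1
  · ext y; exact (h1 0 y).2

end Pool.Agent.Helper82.SG
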