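import Pool.Agent.Helper82.SG.Gen
import Pool.Agent.Helper82.SG.Theta

set_option autoImplicit false

/-!
# Project SG: the mixing endomorphism `φ` of `G1ⁿ⁺¹`
-/

namespace Pool.Agent.Helper82.SG

open Pool.Agent.Helper81.MCG

/-- `P = G1ⁿ⁺¹`. -/
abbrev PP (n : ℕ) : Type := Fin (n + 1) → G1

/-- the faithful action of `P` on `ℚ` by blocks -/
noncomputable def rho (n : ℕ) : PP n →* AQ := (gamHom (n + 1)).comp (MonoidHom.inr AQ (PP n))

lemma rho_injective (n : ℕ) : Function.Injective (rho n) := by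
  intro p q h
  have h1 := gamHom_injective (n + 1) h
  exact (Prod.mk.inj h1).2

lemma rho_beta (n : ℕ) (p : PP n) (t : ℚ) : rho n p (beta t : ℚ) = (beta ((p 0).1 t) : ℚ) := by
  have h := (beta t).2
  change blockMap (fam (n + 1) (1, p)) (beta t : ℚ) = _
  rw [blockMap, Int.floor_eq_zero_iff.mpr ⟨h.1.le, h.2⟩, Int.fract_eq_self.mpr ⟨h.1.le, h.2⟩,
    unitMap_beta]
  have e : fam (n + 1) (1, p) 0 = (p 0).1 := by simp [fam]
  rw [e]
  simp

lemma E0_injective : Function.Injective E0 := by
  rw [injective_iff_map_eq_one]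
  intro f hf
  ext t
  have h1 : (E0 f).1 (beta t : ℚ) = (beta t : ℚ) := by rw [hf]; rfl
  rw [E0_apply, perMap_beta] at h1
  exact beta.injective (Subtype.ext h1)

lemma E0_notInt {f : AQ} (hf : f ≠ 1) : NotInt (E0 f) := by
  intro m hm
  have h0 := hm 0
  have h1 : (E0 f).1 0 = 0 := by rw [E0_apply, perMap]; simp [unitMap_zero]
  rw [h1, zero_add] at h0
  apply hf
  apply E0_injective
  rw [map_one]
  apply G1.ext
  intro x
  rw [hm x, ← h0, add_zero]
  rfl

/-- The mixing endomorphism of `P`. -/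
noncomputable def phi (n : ℕ) : PP n →* PP n :=
  MonoidHom.pi (Fin.cases (E0.comp (rho n))
    (fun j => alpha.comp ((Pi.evalMonoidHom (fun _ => G1) j.succ).prod (rho n))))

lemma phi_zero (n : ℕ) (p : PP n) : phi n p 0 = E0 (rho n p) := rfl

lemma phi_succ (n : ℕ) (p : PP n) (j : Fin n) : phi n p j.succ = alpha (p j.succ, rho n p) := rfl

lemma phi_injective (n : ℕ) : Function.Injective (phi n) := by
  intro p q h
  have h1 := congrFun h 0
  rw [phi_zero, phi_zero] at h1
  exact rho_injective n (E0_injective h1)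

/-- `ι` intertwines `ρ` and `ρ ∘ φ`. -/
lemma rho_phi_iota (n : ℕ) (p : PP n) (x : ℚ) : rho n (phi n p) (iota x) = iota (rho n p x) := by
  rw [iota, rho_beta, phi_zero, E0_apply, perMap_beta]
  rfl

lemma phi_notInt (n : ℕ) {p : PP n} (hp : p ≠ 1) (j : Fin (n + 1)) : NotInt (phi n p j) := by
  have h1 : rho n p ≠ 1 := by
    intro h
    apply hp
    apply rho_injective n
    rw [h, map_one]
  refine Fin.cases ?_ (fun i => ?_) j
  · rw [phi_zero]; exact E0_notInt h1
  · rw [phi_succ]; exact fun m hm => alpha_not_int _ _ h1 m hm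

/-- A normal subgroup of `P` containing `φ(p)`, `p ≠ 1`, is everything. -/
theorem eq_top_of_phi_mem (n : ℕ) {N : Subgroup (PP n)} [hN : N.Normal] {p : PP n} (hp : p ≠ 1)
    (h : phi n p ∈ N) : N = ⊤ := by
  set q := phi n p with hq
  have key : ∀ j : Fin (n + 1), N.comap (MonoidHom.mulSingle (fun _ => G1) j) = ⊤ := by
    intro j
    have : (N.comap (MonoidHom.mulSingle (fun _ => G1) j)).Normal := inferInstance
    apply eq_top_of_commutators (phi_notInt n hp j)
    intro v
    rw [Subgroup.mem_comap]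
    have h1 : q * (MonoidHom.mulSingle (fun _ => G1) j v) * q⁻¹ * (MonoidHom.mulSingle (fun _ => G1) j v)⁻¹ ∈ N := by
      have h2 : q * ((MonoidHom.mulSingle (fun _ => G1) j v) * q⁻¹ * (MonoidHom.mulSingle (fun _ => G1) j v)⁻¹) ∈ N :=
        N.mul_mem h (hN.conj_mem _ (N.inv_mem h) _)
      simpa only [mul_assoc] using h2
    convert h1 using 1
    funext i
    by_cases hi : i = j
    · subst hi
      simp [hq]
    · simp [hi]
  rw [Subgroup.eq_top_iff']
  intro x
  apply Subgroup.pi_mem_of_mulSingle_mem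
  intro j
  have : x j ∈ N.comap (MonoidHom.mulSingle (fun _ => G1) j) := by rw [key j]; trivial
  exact this

/-! ### Homogeneous quasimorphisms on `P` -/

/-- `ψ` on the `j`-th factor -/
noncomputable def part (n : ℕ) (j : Fin (n + 1)) : homQM (PP n) →ₗ[ℝ] homQM G1 :=
  qmComap (MonoidHom.mulSingle (fun _ => G1) j)

lemma part_apply (n : ℕ) (j : Fin (n + 1)) (ψ : homQM (PP n)) (g : G1) :
    (part n j ψ).1 g = ψ.1 (Pi.mulSingle j g) := rfl

lemma qm_pi (n : ℕ) (ψ : homQM (PP n)) (p : PP n) : ψ.1 p = ∑ j, (part n j ψ).1 (p j) := by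
  have h2 : ∀ s : Finset (Fin (n + 1)), ψ.1 (fun i => if i ∈ s then p i else 1)
      = ∑ j ∈ s, (part n j ψ).1 (p j) := by
    intro s
    induction s using Finset.induction with
    | empty =>
      have : (fun i : Fin (n + 1) => if i ∈ (∅ : Finset (Fin (n + 1))) then p i else 1) = 1 := by
        funext i; simp
      rw [this, qm_one]; simp
    | insert a s ha ih =>
      have e : ((fun i => if i ∈ insert a s then p i else 1) : PP n)
          = Pi.mulSingle a (p a) * (fun i => if i ∈ s then p i else 1) := by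
        funext i
        by_cases hi : i = a
        · subst hi; simp [ha]
        · simp [hi]
      have hc : Commute (Pi.mulSingle a (p a) : PP n) (fun i => if i ∈ s then p i else 1) := by
        change _ * _ = _ * _
        funext i
        by_cases hi : i = a
        · subst hi; simp [ha]
        · simp [hi]
      rw [e, qm_comm ψ hc, ih, Finset.sum_insert ha, part_apply]
  have := h2 Finset.univ
  simpa using this

lemma part_phi_zero (n : ℕ) (ψ : homQM (PP n)) : (part n 0 (qmComap (phi n) ψ)).1 (tr 1) = 0 := by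
  rw [part_apply, qmComap_apply, qm_pi]
  apply Finset.sum_eq_zero
  intro i _
  refine Fin.cases ?_ (fun j => ?_) i
  · rw [phi_zero]
    exact qm_AQ (qmComap E0 (part n 0 ψ)) _
  · rw [phi_succ]
    have : (Pi.mulSingle 0 (tr 1) : PP n) j.succ = 1 := by
      rw [Pi.mulSingle_eq_of_ne]; exact Fin.succ_ne_zero j
    rw [this]
    exact qm_AQ (qmComap (alpha.comp (MonoidHom.inr G1 AQ)) (part n j.succ ψ)) _

lemma part_phi_succ (n : ℕ) (ψ : homQM (PP n)) (j : Fin n) :
    (part n j.succ (qmComap (phi n) ψ)).1 (tr 1) = (part n j.succ ψ).1 (tr 1) := by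
  rw [part_apply, qmComap_apply, qm_pi]
  rw [Finset.sum_eq_single j.succ]
  · rw [phi_succ, Pi.mulSingle_eq_same]
    set f : AQ := rho n (Pi.mulSingle j.succ (tr 1)) with hf
    have e : ((tr 1, f) : G1 × AQ) = (tr 1, 1) * (1, f) := by simp
    have hc : Commute ((tr 1, 1) : G1 × AQ) (1, f) := by
      change _ * _ = _ * _
      simp
    rw [e, map_mul, qm_comm _ (hc.map alpha), alpha_tr_one]
    have h1 : (part n j.succ ψ).1 (alpha (1, f)) = 0 :=
      qm_AQ (qmComap (alpha.comp (MonoidHom.inr G1 AQ)) (part n j.succ ψ)) f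
    rw [h1, add_zero]
  · intro i _ hij
    revert hij
    refine Fin.cases ?_ (fun k => ?_) i
    · intro _
      rw [phi_zero]
      exact qm_AQ (qmComap E0 (part n 0 ψ)) _
    · intro hk
      rw [phi_succ]
      have : (Pi.mulSingle j.succ (tr 1) : PP n) k.succ = 1 := by
        rw [Pi.mulSingle_eq_of_ne]; exact hk
      rw [this]
      exact qm_AQ (qmComap (alpha.comp (MonoidHom.inr G1 AQ)) (part n k.succ ψ)) _
  · intro h; exact absurd (Finset.mem_univ _) h

/-- A homogeneous quasimorphism on `P` is determined by its values on the central translations. -/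
lemma qm_PP_ext (n : ℕ) {ψ χ : homQM (PP n)}
    (h : ∀ j, (part n j ψ).1 (tr 1) = (part n j χ).1 (tr 1)) : ψ = χ := by
  have h0 : ψ - χ = 0 := by
    ext1
    funext p
    rw [qm_pi]
    apply Finset.sum_eq_zero
    intro j _
    apply qm_G1_zero
    rw [map_sub]
    change (part n j ψ).1 (tr 1) - (part n j χ).1 (tr 1) = 0
    rw [h j, sub_self]
  exact sub_eq_zero.mp h0

/-- All values on the central translations occur. -/
lemma exists_qm_PP (n : ℕ) (c : Fin (n + 1) → ℝ) :
    ∃ ψ : homQM (PP n), ∀ j, (part n j ψ).1 (tr 1) = c j := by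
  obtain ⟨τ, hτ⟩ := exists_translation_number
  refine ⟨∑ i, c i • qmComap (Pi.evalMonoidHom (fun _ : Fin (n + 1) => G1) i) τ, fun j => ?_⟩
  rw [part_apply]
  have e : ∀ x : PP n, (∑ i, c i • qmComap (Pi.evalMonoidHom (fun _ : Fin (n + 1) => G1) i) τ : homQM (PP n)).1 x
      = ∑ i, c i * τ.1 (x i) := by
    intro x
    rw [Submodule.coe_sum, Finset.sum_apply]
    rfl
  rw [e, Finset.sum_eq_single j]
  · rw [Pi.mulSingle_eq_same, hτ, mul_one]
  · intro i _ hij
    rw [Pi.mulSingle_eq_of_ne hij, qm_one, mul_zero]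
  · intro h; exact absurd (Finset.mem_univ j) h

/-- The quasimorphisms on `P` which do not see the factor `0` are invariant under `φ`. -/
lemma qm_phi_invariant (n : ℕ) (ψ : homQM (PP n)) (h : (part n 0 ψ).1 (tr 1) = 0) :
    qmComap (phi n) ψ = ψ := by
  apply qm_PP_ext
  intro j
  refine Fin.cases ?_ (fun i => ?_) j
  · rw [part_phi_zero, h]
  · rw [part_phi_succ]

end Pool.Agent.Helper82.SG
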