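import Pool.Agent.Helper82.SG.Conj

set_option autoImplicit false

/-!
# Project SG: elements of `G1` supported in an interval
-/

namespace Pool.Agent.Helper82.SG

open Pool.Agent.Helper81.MCG

/-- `u` is the identity outside `(a, b) + ℤ` (used for `a < b < a + 1`). -/
def SuppIn (a b : ℚ) (u : G1) : Prop := ∀ x, b ≤ x → x ≤ a + 1 → u.1 x = x

lemma inv_apply_apply (h : G1) (x : ℚ) : (h⁻¹).1 (h.1 x) = x := by
  rw [← G1.mul_apply]; simp

lemma apply_inv_apply (h : G1) (x : ℚ) : h.1 ((h⁻¹).1 x) = x := by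
  rw [← G1.mul_apply]; simp

lemma SuppIn.conj {a b : ℚ} {u : G1} (hu : SuppIn a b u) (h : G1) :
    SuppIn (h.1 a) (h.1 b) (h * u * h⁻¹) := by
  intro x hx1 hx2
  have h1 : b ≤ (h⁻¹).1 x := by
    rw [← h.1.le_iff_le, apply_inv_apply]; exact hx1
  have h2 : (h⁻¹).1 x ≤ a + 1 := by
    rw [← h.1.le_iff_le, apply_inv_apply, G1.add_one]; exact hx2
  rw [G1.mul_apply, G1.mul_apply, hu _ h1 h2, apply_inv_apply]

lemma SuppIn.left {a b : ℚ} {u : G1} (hu : SuppIn a b u) (hab : b ≤ a + 1) : u.1 a = a := by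
  have h1 := hu (a + 1) hab le_rfl
  rw [G1.add_one] at h1
  linarith

/-- every rational is a point of `[a, a+1)` plus an integer -/
lemma exists_rep (a x : ℚ) : ∃ (y : ℚ) (m : ℤ), x = y + m ∧ a ≤ y ∧ y < a + 1 := by
  refine ⟨x - ⌊x - a⌋, ⌊x - a⌋, by ring, ?_, ?_⟩
  · have := Int.floor_le (x - a); linarith
  · have := Int.lt_floor_add_one (x - a); linarith

lemma SuppIn.commute {a b : ℚ} {u w : G1} (hu : SuppIn a b u) (hab : a < b) (hab1 : b < a + 1)
    (hw : ∀ x, a ≤ x → x ≤ b → w.1 x = x) : Commute u w := by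
  apply G1.ext
  intro x
  obtain ⟨y, m, rfl, h1, h2⟩ := exists_rep a x
  have hua := hu.left hab1.le
  have hub := hu b le_rfl hab1.le
  simp only [G1.mul_apply, G1.add_int]
  congr 1
  rcases le_total y b with h | h
  · rw [hw y h1 h]
    have h3 : a ≤ u.1 y := by rw [← hua]; exact u.1.monotone h1
    have h4 : u.1 y ≤ b := by rw [← hub]; exact u.1.monotone h
    rw [hw _ h3 h4]
  · rw [hu y h h2.le]
    have hwa := hw a le_rfl hab.le
    have hwb := hw b hab.le le_rfl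
    have h3 : b ≤ w.1 y := by
      calc b = w.1 b := hwb.symm
        _ ≤ w.1 y := w.1.monotone h
    have h4 : w.1 y ≤ a + 1 := by
      calc w.1 y ≤ w.1 (a + 1) := w.1.monotone h2.le
        _ = a + 1 := by rw [G1.add_one, hwa]
    rw [hu _ h3 h4]

/-- `G1` is transitive on pairs `a < b < a + 1`. -/
lemma exists_move {a b c d : ℚ} (hab : a < b) (hab1 : b < a + 1) (hcd : c < d) (hcd1 : d < c + 1) :
    ∃ h : G1, h.1 a = c ∧ h.1 b = d := by
  have h1 : 0 < b - a ∧ b - a < 1 := ⟨by linarith, by linarith⟩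
  have h3 : 0 < d - c ∧ d - c < 1 := ⟨by linarith, by linarith⟩
  refine ⟨tr c * E0 (OrderIso.addRight (beta.symm ⟨d - c, h3⟩ - beta.symm ⟨b - a, h1⟩)) * tr (-a), ?_, ?_⟩
  · rw [G1.mul_apply, G1.mul_apply, tr_apply, tr_apply, E0_apply, perMap]
    simp [unitMap_zero]
  · have e1 : ⌊b - a⌋ = 0 := Int.floor_eq_zero_iff.mpr ⟨h1.1.le, h1.2⟩
    have e2 : Int.fract (b - a) = b - a := Int.fract_eq_self.mpr ⟨h1.1.le, h1.2⟩
    rw [G1.mul_apply, G1.mul_apply, tr_apply, tr_apply, E0_apply, perMap, ← sub_eq_add_neg, e1, e2,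
      unitMap_of_mem _ _ h1]
    have e3 : (OrderIso.addRight (beta.symm ⟨d - c, h3⟩ - beta.symm ⟨b - a, h1⟩)) (beta.symm ⟨b - a, h1⟩)
        = beta.symm ⟨d - c, h3⟩ := by
      simp
    rw [e3]
    simp

/-- `x` is not an integer translation. -/
def NotInt (x : G1) : Prop := ∀ m : ℤ, ¬ ∀ y, x.1 y = y + m

lemma NotInt.exists_point {x : G1} (hx : NotInt x) : ∃ x0, ∀ m : ℤ, x.1 x0 ≠ x0 + m := by
  by_contra hcon
  push Not at hcon
  obtain ⟨m0, hm0⟩ := hcon 0
  rw [zero_add] at hm0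
  apply hx m0
  have key : ∀ y, 0 ≤ y → y < 1 → x.1 y = y + m0 := by
    intro y h0 h1
    obtain ⟨m, hm⟩ := hcon y
    have h2 : x.1 0 ≤ x.1 y := x.1.monotone h0
    have h3 : x.1 y < x.1 1 := x.1.strictMono h1
    have h4 : x.1 1 = m0 + 1 := by
      have := G1.add_one x 0
      rw [zero_add, hm0] at this
      exact this
    rw [hm0, hm] at h2
    rw [h4, hm] at h3
    have h5 : (m0 : ℚ) - 1 < m := by linarith
    have h6 : (m : ℚ) < m0 + 1 := by linarith
    have h7 : m0 - 1 < m := by exact_mod_cast h5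
    have h8 : m < m0 + 1 := by exact_mod_cast h6
    have h9 : m = m0 := by omega
    rw [hm, h9]
  intro y
  have h1 := key (Int.fract y) (Int.fract_nonneg y) (Int.fract_lt_one y)
  have h2 := G1.add_int x (Int.fract y) ⌊y⌋
  rw [Int.fract_add_floor, h1] at h2
  rw [h2]
  have := Int.floor_add_fract y
  linarith

lemma NotInt.exists_interval {x : G1} (hx : NotInt x) :
    ∃ (a b : ℚ) (m : ℤ), a < b ∧ b < a + 1 ∧ b + m < x.1 a ∧ x.1 b < a + m + 1 := by
  obtain ⟨x0, hx0⟩ := hx.exists_point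
  set m : ℤ := ⌊x.1 x0 - x0⌋ with hm
  have h1 : x0 + m < x.1 x0 := by
    have h := Int.floor_le (x.1 x0 - x0)
    have h' := hx0 m
    rw [← hm] at h
    rcases lt_or_eq_of_le h with h2 | h2
    · linarith
    · exact absurd (by linarith : x.1 x0 = x0 + m) h'
  have h2 : x.1 x0 < x0 + m + 1 := by
    have h := Int.lt_floor_add_one (x.1 x0 - x0)
    rw [← hm] at h
    linarith
  have h3 : max ((x⁻¹).1 (x0 + m)) (x.1 x0 - m - 1) < x0 := by
    apply max_lt
    · rw [← x.1.lt_iff_lt, apply_inv_apply]; exact h1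
    · linarith
  obtain ⟨a, ha1, ha2⟩ := exists_between h3
  have h4 : x0 + m < x.1 a := by
    have := lt_of_le_of_lt (le_max_left _ _) ha1
    rw [← x.1.lt_iff_lt, apply_inv_apply] at this
    exact this
  have h5 : x.1 x0 < a + m + 1 := by
    have := lt_of_le_of_lt (le_max_right _ _) ha1
    linarith
  have h6 : x0 < min (x.1 a - m) ((x⁻¹).1 (a + m + 1)) := by
    apply lt_min
    · linarith
    · rw [← x.1.lt_iff_lt, apply_inv_apply]; exact h5
  obtain ⟨b, hb1, hb2⟩ := exists_between h6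
  have h7 : b + m < x.1 a := by
    have := lt_of_lt_of_le hb2 (min_le_left _ _)
    linarith
  have h8 : x.1 b < a + m + 1 := by
    have := lt_of_lt_of_le hb2 (min_le_right _ _)
    rw [← x.1.lt_iff_lt, apply_inv_apply] at this
    exact this
  have h9 : x.1 a < x.1 b := x.1.strictMono (ha2.trans hb1)
  exact ⟨a, b, m, ha2.trans hb1, by linarith, h7, h8⟩

/-- If `x` moves `[a,b] + ℤ` off itself, then for `v` supported in `(a,b) + ℤ` the conjugate
`x v x⁻¹` is the identity on `[a,b]`. -/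
lemma conj_fix {a b : ℚ} {m : ℤ} {x v : G1} (h1 : b + m < x.1 a) (h2 : x.1 b < a + m + 1)
    (hv : SuppIn a b v) (y : ℚ) (hy1 : a ≤ y) (hy2 : y ≤ b) : (x * v * x⁻¹).1 y = y := by
  set z : ℚ := (x⁻¹).1 y with hz
  have hxz : x.1 z = y := apply_inv_apply x y
  have h3 : b ≤ z + (m + 1 : ℤ) := by
    rw [← x.1.le_iff_le, G1.add_int, hxz]
    push_cast
    linarith
  have h4 : z + (m + 1 : ℤ) ≤ a + 1 := by
    have h5 : z + (m : ℤ) < a := by
      rw [← x.1.lt_iff_lt, G1.add_int, hxz]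
      linarith
    push_cast
    linarith
  have h5 := hv _ h3 h4
  rw [G1.add_int] at h5
  have h6 : v.1 z = z := by linarith
  rw [G1.mul_apply, G1.mul_apply, ← hz, h6, hxz]

/-- The two supports trick. -/
lemma commutator_mem {N : Subgroup G1} [hN : N.Normal] {a b : ℚ} {m : ℤ} {x : G1} (hab : a < b)
    (hab1 : b < a + 1) (h1 : b + m < x.1 a) (h2 : x.1 b < a + m + 1)
    (hx : ∀ v, x * v * x⁻¹ * v⁻¹ ∈ N) {u v : G1} (hu : SuppIn a b u) (hv : SuppIn a b v) :
    u * v * u⁻¹ * v⁻¹ ∈ N := by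
  have hv' : SuppIn a b v⁻¹ := by
    intro y hy1 hy2
    have := hv y hy1 hy2
    calc (v⁻¹).1 y = (v⁻¹).1 (v.1 y) := by rw [this]
      _ = y := inv_apply_apply v y
  set w : G1 := x * v⁻¹ * x⁻¹ with hw
  have hfix : ∀ y, a ≤ y → y ≤ b → w.1 y = y := conj_fix h1 h2 hv'
  have c1 : Commute u w := hu.commute hab hab1 hfix
  have c2 : Commute v w := hv.commute hab hab1 hfix
  have hn : w * v ∈ N := by
    have := hx v⁻¹
    rw [inv_inv] at this
    exact this
  have h3 : u * (w * v) * u⁻¹ * (w * v)⁻¹ ∈ N := N.mul_mem (hN.conj_mem _ hn u) (N.inv_mem hn)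
  have e : u * (w * v) * u⁻¹ * (w * v)⁻¹ = w * (u * v * u⁻¹ * v⁻¹) * w⁻¹ := by
    have e1 : u * w = w * u := c1.eq
    calc u * (w * v) * u⁻¹ * (w * v)⁻¹ = (u * w) * v * u⁻¹ * v⁻¹ * w⁻¹ := by group
      _ = (w * u) * v * u⁻¹ * v⁻¹ * w⁻¹ := by rw [e1]
      _ = w * (u * v * u⁻¹ * v⁻¹) * w⁻¹ := by group
  rw [e] at h3
  have h4 := hN.conj_mem _ h3 w⁻¹
  have e2 : w⁻¹ * (w * (u * v * u⁻¹ * v⁻¹) * w⁻¹) * w⁻¹⁻¹ = u * v * u⁻¹ * v⁻¹ := by group
  rw [e2] at h4
  exact h4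

end Pool.Agent.Helper82.SG
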