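import Pool.Agent.Helper82.SG.Phi

set_option autoImplicit false

/-!
# Project SG: the union of the telescope `P → P → ⋯` along `φ`
-/

namespace Pool.Agent.Helper82.SG

open Pool.Agent.Helper81.MCG

/-- `G` is the union of copies `a i` of `P = G1ⁿ⁺¹`, the `i`-th one contained in the `i+1`-st one
through `φ`. -/
structure Tele (n : ℕ) (G : Type) [Group G] where
  /-- the `i`-th copy -/
  a : ℕ → PP n →* G
  inj : ∀ i, Function.Injective (a i)
  comp : ∀ i p, a (i + 1) (phi n p) = a i p
  surj : ∀ g, ∃ i p, a i p = g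

namespace Tele

variable {n : ℕ} {G : Type} [Group G] (T : Tele n G)

include T

lemma comp_iter (i k : ℕ) (p : PP n) : T.a (i + k) ((phi n)^[k] p) = T.a i p := by
  induction k generalizing i p with
  | zero => rfl
  | succ k ih =>
    rw [Function.iterate_succ_apply, show i + (k + 1) = (i + 1) + k by ring, ih, T.comp]

lemma exists_level (i : ℕ) (g : G) : ∃ j p, i ≤ j ∧ T.a j p = g := by
  obtain ⟨j, p, rfl⟩ := T.surj g
  exact ⟨j + i, (phi n)^[i] p, by omega, T.comp_iter j i p⟩

lemma exists_common (g h : G) : ∃ i p q, T.a i p = g ∧ T.a i q = h := by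
  obtain ⟨j, q, rfl⟩ := T.surj h
  obtain ⟨i, p, hij, rfl⟩ := T.exists_level j g
  obtain ⟨k, rfl⟩ := Nat.exists_eq_add_of_le hij
  exact ⟨j + k, p, (phi n)^[k] q, rfl, T.comp_iter j k q⟩

omit [Group G] T in
lemma iter_ne_one (k : ℕ) {p : PP n} (hp : p ≠ 1) : (phi n)^[k] p ≠ 1 := by
  induction k with
  | zero => exact hp
  | succ k ih =>
    rw [Function.iterate_succ_apply']
    intro h
    apply ih
    apply phi_injective n
    rw [h, map_one]

/-- The union is a simple group. -/
theorem simple : IsSimpleGroup G := by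
  have hne : (fun _ => tr 1 : PP n) ≠ 1 := by
    intro h
    have h1 := congrArg (fun p : PP n => (p 0).1 0) h
    simp at h1
  have : Nontrivial G := by
    refine ⟨T.a 0 (fun _ => tr 1), 1, fun h => hne ?_⟩
    apply T.inj 0
    rw [h, map_one]
  refine ⟨fun N hN => ?_⟩
  by_cases hbot : N = ⊥
  · exact Or.inl hbot
  right
  obtain ⟨g, hg, hg1⟩ : ∃ g ∈ N, g ≠ 1 := by
    by_contra hcon
    push Not at hcon
    exact hbot ((Subgroup.eq_bot_iff_forall N).mpr hcon)
  obtain ⟨i, p, rfl⟩ := T.surj g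
  have hp : p ≠ 1 := by
    rintro rfl
    exact hg1 (map_one _)
  have key : ∀ k, N.comap (T.a (i + (k + 1))) = ⊤ := by
    intro k
    have hnorm : (N.comap (T.a (i + (k + 1)))).Normal := inferInstance
    apply eq_top_of_phi_mem n (iter_ne_one k hp)
    rw [Subgroup.mem_comap, ← Function.iterate_succ_apply' (phi n) k p, T.comp_iter]
    exact hg
  rw [Subgroup.eq_top_iff']
  intro x
  obtain ⟨j, q, hij, rfl⟩ := T.exists_level (i + 1) x
  obtain ⟨k, rfl⟩ := Nat.exists_eq_add_of_le hij
  have h1 := key k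
  rw [show i + (k + 1) = i + 1 + k by ring] at h1
  have : q ∈ N.comap (T.a (i + 1 + k)) := by rw [h1]; trivial
  exact this

/-- the values of a homogeneous quasimorphism at the central translations of the level `0` -/
noncomputable def ev : homQM G →ₗ[ℝ] (Fin n → ℝ) where
  toFun ψ := fun j => (part n j.succ (qmComap (T.a 0) ψ)).1 (tr 1)
  map_add' _ _ := rfl
  map_smul' _ _ := rfl

lemma comap_succ (ψ : homQM G) (i : ℕ) :
    qmComap (T.a i) ψ = qmComap (phi n) (qmComap (T.a (i + 1)) ψ) := by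
  ext p
  rw [qmComap_apply, qmComap_apply, qmComap_apply, T.comp]

lemma ev_injective : Function.Injective T.ev := by
  rw [← LinearMap.ker_eq_bot, LinearMap.ker_eq_bot']
  intro ψ hψ
  have h1 : ∀ i (j : Fin n), (part n j.succ (qmComap (T.a i) ψ)).1 (tr 1) = 0 := by
    intro i j
    induction i with
    | zero => exact congrFun hψ j
    | succ i ih =>
      rw [T.comap_succ, part_phi_succ] at ih
      exact ih
  have h2 : ∀ i, qmComap (T.a i) ψ = 0 := by
    intro i
    apply qm_PP_ext
    intro j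
    rw [map_zero]
    change _ = (0 : ℝ)
    refine Fin.cases ?_ (fun k => ?_) j
    · rw [T.comap_succ, part_phi_zero]
    · exact h1 i k
  ext g
  obtain ⟨i, p, rfl⟩ := T.surj g
  have := h2 i
  calc ψ.1 (T.a i p) = (qmComap (T.a i) ψ).1 p := rfl
    _ = 0 := by rw [this]; rfl

lemma ev_surjective : Function.Surjective T.ev := by
  intro c
  obtain ⟨τ, hτ⟩ := exists_qm_PP n (Fin.cons 0 c)
  have hinv : qmComap (phi n) τ = τ := qm_phi_invariant n τ (by rw [hτ]; rfl)
  have hinv' : ∀ p, τ.1 (phi n p) = τ.1 p := by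
    intro p
    calc τ.1 (phi n p) = (qmComap (phi n) τ).1 p := rfl
      _ = τ.1 p := by rw [hinv]
  have hiter : ∀ k p, τ.1 ((phi n)^[k] p) = τ.1 p := by
    intro k
    induction k with
    | zero => intro p; rfl
    | succ k ih => intro p; rw [Function.iterate_succ_apply, ih, hinv']
  have hwd : ∀ i j p q, T.a i p = T.a j q → τ.1 p = τ.1 q := by
    intro i j p q h
    rw [← T.comp_iter i j p, ← T.comp_iter j i q, show j + i = i + j by ring] at h
    have h1 := T.inj _ h
    rw [← hiter j p, h1, hiter]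
  choose lv pt hpt using T.surj
  have hval : ∀ i p, τ.1 (pt (T.a i p)) = τ.1 p := by
    intro i p
    exact hwd _ _ _ _ (hpt (T.a i p))
  obtain ⟨D, -, hD⟩ := qm_defect τ
  refine ⟨⟨fun g => τ.1 (pt g), ⟨D, fun g h => ?_⟩, fun g k => ?_⟩, ?_⟩
  · obtain ⟨i, p, q, rfl, rfl⟩ := T.exists_common g h
    beta_reduce
    rw [← map_mul, hval, hval, hval]
    exact hD p q
  · obtain ⟨i, p, rfl⟩ := T.surj g
    beta_reduce
    rw [← map_zpow, hval, hval, qm_zpow]
  · funext j
    change τ.1 (pt (T.a 0 (Pi.mulSingle j.succ (tr 1)))) = c j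
    rw [hval]
    have := hτ j.succ
    rw [part_apply] at this
    rw [this, Fin.cons_succ]

lemma homs_eq_bot : homs G = ⊥ := by
  rw [Submodule.eq_bot_iff]
  intro ψ hψ
  apply T.ev_injective
  rw [map_zero]
  funext j
  have h : part n j.succ (qmComap (T.a 0) ψ) ∈ homs G1 := by
    intro g h
    change ψ.1 (T.a 0 (Pi.mulSingle j.succ (g * h))) = ψ.1 (T.a 0 (Pi.mulSingle j.succ g)) + ψ.1 (T.a 0 (Pi.mulSingle j.succ h))
    rw [Pi.mulSingle_mul, map_mul]
    exact hψ _ _
  exact hom_G1_zero _ h (tr 1)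

theorem rank : dimQTilde G = n := by
  unfold dimQTilde
  have e1 : QTilde G ≃ₗ[ℝ] homQM G := Submodule.quotEquivOfEqBot _ T.homs_eq_bot
  have e2 : homQM G ≃ₗ[ℝ] (Fin n → ℝ) :=
    LinearEquiv.ofBijective T.ev ⟨T.ev_injective, T.ev_surjective⟩
  rw [(e1.trans e2).rank_eq]
  simp

theorem not_amenable : ¬ Amenable G := by
  intro h
  have hinj : Function.Injective ((T.a 0).comp (MonoidHom.mulSingle (fun _ => G1) 0)) :=
    (T.inj 0).comp (Pi.mulSingle_injective (M := fun _ : Fin (n + 1) => G1) 0)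
  exact not_amenable_G1 (amenable_of_injective _ hinj h)

end Tele

end Pool.Agent.Helper82.SG
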